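import Pool.Agent.Work.MP_327059_nt.UB.StmtsL

set_option autoImplicit false

namespace Pool.Agent.Work.MP_327059_nt.UB

open Pool.Agent.Work.MP_327059_nt.AA Pool.Agent.Work.MP_327059_nt.FL

theorem ub_BD : StBD := by
  intro β s
  refine ⟨fun h => ?_, fun hs hexp halg => ?_⟩
  · have hst : Transcendental ℚ s := fun h' => LW.transcendental_exp h' h.ne h.exp
    refine ⟨hst, ?_, ?_⟩
    · by_contra h'
      exact h.dep ((pr_Pair _ _ hst).mpr h')
    · intro D D'
      have h1 := dep_rel β s h.ne h.exp h.dep D D'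
      unfold bf
      rw [h1, sub_self]
  · have hst : Transcendental ℚ s := fun h' => LW.transcendental_exp h' hs hexp
    refine ⟨hs, hexp, fun hi => ?_⟩
    exact ((pr_Pair _ _ hst).mp hi) halg

end Pool.Agent.Work.MP_327059_nt.UB
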