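import Pool.Agent.Work.MP_327059_nt.UB.StmtsL

/-!
# MP_327059_nt, block UB, item ND: non-degeneracy
-/

set_option autoImplicit false

namespace Pool.Agent.Work.MP_327059_nt.UB

open Pool.Agent.ED Pool.Agent.Work.MP_327059_nt.AA Pool.Agent.Work.MP_327059_nt.FL

namespace IUB_ND

theorem comm_zero {s y : ℂ} (hy : Alg s y) (D0 D : Derivation ℚ ℂ ℂ) (h0 : D0 s = 1)
    (hD : D s = 0) : D (D0 y) = 0 := by
  have hDy : D y = 0 := der_alg hy D hD
  have h1 : ⁅D, D0⁆ s = 0 := by
    rw [Derivation.commutator_apply, h0, hD, map_zero, Derivation.map_one_eq_zero, sub_zero]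
  have h2 : ⁅D, D0⁆ y = 0 := der_alg hy _ h1
  rw [Derivation.commutator_apply, hDy, map_zero, sub_zero] at h2
  exact h2

theorem c_zero {s y : ℂ} (hy0 : y ≠ 0) (hy : Alg s y) (D0 D : Derivation ℚ ℂ ℂ) (h0 : D0 s = 1)
    (hD : D s = 0) : D (D0 y / y) = 0 := by
  have hDy : D y = 0 := der_alg hy D hD
  have h1 := comm_zero hy D0 D h0 hD
  have h2 : D0 y = (D0 y / y) * y := by field_simp
  rw [h2, Derivation.leibniz, hDy, smul_zero, zero_add, smul_eq_mul] at h1
  exact (mul_eq_zero.1 h1).resolve_left hy0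

end IUB_ND

/-- Item ND. -/
theorem ub_ND : StND := by
  intro β s b hβ hirr hbad H
  have hst : Transcendental ℚ s := fun h => LW.transcendental_exp h hbad.ne hbad.exp
  have hy : Alg s (Complex.exp (β * s)) := by
    by_contra h
    exact hbad.dep ((pr_Pair _ _ hst).mpr h)
  have hy0 : Complex.exp (β * s) ≠ 0 := Complex.exp_ne_zero _
  obtain ⟨D0, h0⟩ := exists_der_one hst
  set c : ℂ := ld β D0 s with hc
  have hc' : c = D0 (Complex.exp (β * s)) / Complex.exp (β * s) := rfl
  have hDc : ∀ D : Derivation ℚ ℂ ℂ, D s = 0 → D c = 0 := by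
    intro D hD
    rw [hc']
    exact IUB_ND.c_zero hy0 hy D0 D h0 hD
  have hc0 : c ≠ 0 := by
    intro h
    have h1 : D0 (Complex.exp (β * s)) = 0 := by
      rw [hc', div_eq_zero_iff] at h
      exact h.resolve_right hy0
    have h2 : ∀ D : Derivation ℚ ℂ ℂ, D (Complex.exp (β * s)) = 0 := by
      intro D
      let D' : Derivation ℚ ℂ ℂ := D - D s • D0
      have hD' : ∀ w, D' w = D w - D s * D0 w := fun w => rfl
      have h3 : D' s = 0 := by rw [hD', h0, mul_one, sub_self]
      have h4 := der_alg hy D' h3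
      rw [hD', h1, mul_zero, sub_zero] at h4
      exact h4
    refine full_GS β s hβ hirr hbad.ne hbad.exp ?_
    by_contra h3
    obtain ⟨D, hD⟩ := exists_der_one (show Transcendental ℚ (Complex.exp (β * s)) from h3)
    rw [h2 D] at hD
    exact zero_ne_one hD
  have hrel : ∀ D : Derivation ℚ ℂ ℂ, D s = 0 → ld β D b = D b * c := by
    intro D hD
    have h1 := H D D0
    have h2 : ld β D s = 0 := by
      rw [ld_apply, der_alg hy D hD, zero_div]
    unfold bf at h1
    rw [hD, h0, h2, ← hc] at h1
    linear_combination -h1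
  -- the algebraically closed field of the numbers algebraic over `ℚ(s)`
  let E0 := IntermediateField.adjoin ℚ ({s} : Set ℂ)
  let E : IntermediateField ℚ ℂ := (algebraicClosure E0 ℂ).restrictScalars ℚ
  have hEmem : ∀ z : ℂ, z ∈ E ↔ IsAlgebraic E0 z := fun z => by
    change z ∈ algebraicClosure E0 ℂ ↔ _
    exact mem_algebraicClosure_iff
  have hsE : s ∈ E := by
    rw [hEmem]
    have h : s ∈ E0 := IntermediateField.subset_adjoin ℚ _ rfl
    exact isAlgebraic_algebraMap (R := E0) (A := ℂ) ⟨s, h⟩
  have hEcl : ∀ z : ℂ, IsAlgebraic E z → z ∈ E := by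
    intro z hz
    have hz' : IsAlgebraic (algebraicClosure E0 ℂ) z := hz
    rw [hEmem]
    exact hz'.restrictScalars E0
  have hclosed : IsAlgClosed E := closed_of E hEcl
  have hexpE : Alg s (Complex.exp (β * b)) := by
    let ε : Fin 1 → E := fun _ => 1
    have hε : LinearIndependent ℚ ε := by
      rw [Fintype.linearIndependent_iff]
      intro g hg i
      rw [Fin.sum_univ_one] at hg
      have h1 : g 0 • (1 : E) = 0 := hg
      rw [smul_eq_zero] at h1
      rw [Subsingleton.elim i 0]
      exact h1.resolve_right one_ne_zero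
    have hmem := tor_res_closed (C := E) (M := ℂ) ε hε (fun _ => Complex.exp (β * b))
      (fun _ => Complex.exp_ne_zero _) (c * b) (by
        intro X
        have hXE : ∀ z ∈ E, X z = 0 := fun z hz => X.map_algebraMap (⟨z, hz⟩ : E)
        have hXs : (X.restrictScalars ℚ) s = 0 := hXE s hsE
        have h1 := hrel (X.restrictScalars ℚ) hXs
        have h2 : X c = 0 := hDc (X.restrictScalars ℚ) hXs
        rw [Fin.sum_univ_one, Derivation.leibniz, h2, smul_zero, add_zero, smul_eq_mul]
        change algebraMap E ℂ 1 * (X (Complex.exp (β * b)) / Complex.exp (β * b)) = c * X b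
        rw [map_one, one_mul]
        change X (Complex.exp (β * b)) / Complex.exp (β * b) = X b * c at h1
        rw [h1]
        ring)
    obtain ⟨e, he⟩ := hmem 0
    have h2 : Complex.exp (β * b) ∈ E := by
      rw [← he]
      exact e.2
    exact (hEmem _).1 h2
  refine ⟨?_, hexpE⟩
  apply alg_of_der
  intro D hD
  have h1 := hrel D hD
  rw [ld_apply, der_alg hexpE D hD, zero_div] at h1
  exact (mul_eq_zero.1 h1.symm).resolve_right hc0

end Pool.Agent.Work.MP_327059_nt.UB
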