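import Pool.Agent.Work.MP_327059_nt.FL.Fin

/-!
# MP_327059_nt, block UB (captain helper12): at most `2^(n-1)` exceptional lines: definitions
-/

set_option autoImplicit false

namespace Pool.Agent.Work.MP_327059_nt.UB

open Pool.Agent.Work.MP_327059_nt.AA Pool.Agent.Work.MP_327059_nt.FL

/-- `z` is a non-zero logarithm of an algebraic number and `z`, `exp (β z)` are dependent. -/
structure Bad (β z : ℂ) : Prop where
  ne : z ≠ 0
  exp : IsAlgebraic ℚ (Complex.exp z)
  dep : ¬ AlgebraicIndependent ℚ ![z, Complex.exp (β * z)]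

/-- The bilinear form `D z · D' log exp (β w) - D' z · D log exp (β w)` of two derivations. -/
noncomputable def bf (β : ℂ) (D D' : Derivation ℚ ℂ ℂ) (z w : ℂ) : ℂ :=
  D z * ld β D' w - D' z * ld β D w

/-- The elements `b` of `V` such that `b` and `exp (β b)` are algebraic over `ℚ(s)`. -/
noncomputable def Vs (β : ℂ) (V : Submodule ℚ ℂ) (s : ℂ) : Submodule ℚ ℂ where
  carrier := {b | b ∈ V ∧ Alg s b ∧ Alg s (Complex.exp (β * b))}
  add_mem' := by
    rintro a b ⟨ha, ha1, ha2⟩ ⟨hb, hb1, hb2⟩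
    refine ⟨V.add_mem ha hb, IsAlgebraic.add ha1 hb1, ?_⟩
    rw [mul_add, Complex.exp_add]
    exact FinB_algmul ha2 hb2
  zero_mem' := by
    refine ⟨V.zero_mem, FinB_rat isAlgebraic_zero, ?_⟩
    rw [mul_zero, Complex.exp_zero]
    exact FinB_rat isAlgebraic_one
  smul_mem' := by
    rintro q b ⟨hb, hb1, hb2⟩
    refine ⟨V.smul_mem q hb, ?_, ?_⟩
    · rw [Rat.smul_def]
      exact FinB_algmul (FinB_rat (isAlgebraic_algebraMap (R := ℚ) (A := ℂ) q)) hb1
    · have h : β * (q • b) = (q : ℂ) * (β * b) := by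
        rw [Rat.smul_def]
        ring
      rw [h]
      exact FinB_exp_rat q hb2

theorem mem_Vs (β : ℂ) (V : Submodule ℚ ℂ) (s b : ℂ) :
    b ∈ Vs β V s ↔ b ∈ V ∧ Alg s b ∧ Alg s (Complex.exp (β * b)) := Iff.rfl

end Pool.Agent.Work.MP_327059_nt.UB
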