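import Pool.Agent.Work.MP_327059_nt.UB.StmtsL

/-!
# MP_327059_nt, block UB: assembly
-/

set_option autoImplicit false

namespace Pool.Agent.Work.MP_327059_nt.UB

open Pool.Agent.Work.MP_327059_nt.AA Pool.Agent.Work.MP_327059_nt.FL

namespace IUB_FN

/-- A set all of whose finite subsets have at most `N` elements is finite with at most `N` elements. -/
theorem finite_of_bound {α : Type} (T : Set α) (N : ℕ)
    (h : ∀ F : Finset α, (∀ a ∈ F, a ∈ T) → F.card ≤ N) :
    ∃ F : Finset α, (∀ a, a ∈ F ↔ a ∈ T) ∧ F.card ≤ N := by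
  classical
  have hfin : T.Finite := by
    by_contra hinf
    obtain ⟨F, hF1, hF2⟩ := Set.Infinite.exists_subset_card_eq (s := T) hinf (N + 1)
    have := h F (fun a ha => hF1 ha)
    omega
  refine ⟨hfin.toFinset, fun a => hfin.mem_toFinset, h _ fun a ha => hfin.mem_toFinset.1 ha⟩

end IUB_FN

theorem ub_FN (hVA : StVA) (hCT : StCT) (hCP : StCP) : StFN := by
  classical
  intro β hβ hirr V hfin hV
  let T : Set (Submodule ℚ ℂ) := {W | ∃ s ∈ V, Bad β s ∧ W = Vs β V s}
  have hle : ∀ s, Vs β V s ≤ V := fun s b hb => hb.1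
  have hT0 : ∀ W ∈ T, W ≤ V := by
    rintro W ⟨s, _, _, rfl⟩
    exact hle s
  have hfd : ∀ W ∈ T, FiniteDimensional ℚ W := fun W hW => Submodule.finiteDimensional_of_le (hT0 W hW)
  -- the elements of `W ∈ T`
  have hel : ∀ W ∈ T, ∀ b ∈ W, b ≠ 0 → Bad β b ∧ W = Vs β V b := by
    rintro W ⟨s, hs, hb, rfl⟩ b hbW hb0
    obtain ⟨_, h2, _, _⟩ := hVA β hβ hirr V hV s hs hb
    obtain ⟨h3, h4⟩ := h2 b hbW hb0
    exact ⟨h3, h4.symm⟩
  have hdim : ∀ W ∈ T, Module.finrank ℚ W = 1 ∨ Module.finrank ℚ W = 2 := by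
    rintro W ⟨s, hs, hb, rfl⟩
    obtain ⟨h1, _, h3, _⟩ := hVA β hβ hirr V hV s hs hb
    have hf := hfd (Vs β V s) ⟨s, hs, hb, rfl⟩
    have h4 : 0 < Module.finrank ℚ (Vs β V s) := by
      rw [Module.finrank_pos_iff_exists_ne_zero]
      exact ⟨⟨s, h1⟩, fun h => hb.ne (congrArg Subtype.val h)⟩
    omega
  have hinter : ∀ W₁ ∈ T, ∀ W₂ ∈ T, W₁ ≠ W₂ → W₁ ⊓ W₂ = ⊥ := by
    intro W₁ h1 W₂ h2 hne
    rw [Submodule.eq_bot_iff]
    intro b hb
    by_contra hb0
    apply hne
    rw [(hel W₁ h1 b hb.1 hb0).2, (hel W₂ h2 b hb.2 hb0).2]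
  obtain ⟨L, hL1, hL2⟩ := IUB_FN.finite_of_bound {W | W ∈ T ∧ Module.finrank ℚ W = 1}
    (2 ^ (Module.finrank ℚ V - 1)) (by
      intro F hF
      -- generators
      have hgen : ∀ W : F, ∃ s ∈ (W : Submodule ℚ ℂ), s ≠ 0 ∧ (W : Submodule ℚ ℂ) = Submodule.span ℚ {s} := by
        intro W
        obtain ⟨hWT, hW1⟩ := hF W W.2
        obtain ⟨⟨s, hs⟩, hs0, hs1⟩ := finrank_eq_one_iff'.1 hW1
        refine ⟨s, hs, fun h => hs0 (Subtype.ext h), ?_⟩
        apply le_antisymm
        · intro b hb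
          obtain ⟨q, hq⟩ := hs1 ⟨b, hb⟩
          rw [Submodule.mem_span_singleton]
          exact ⟨q, congrArg Subtype.val hq⟩
        · rw [Submodule.span_singleton_le_iff_mem]
          exact hs
      choose s hs1 hs2 hs3 using hgen
      have hinj : Function.Injective s := by
        intro W W' h
        apply Subtype.ext
        rw [hs3 W, hs3 W', h]
      have hcard : (Finset.univ.image s).card = F.card := by
        rw [Finset.card_image_of_injective _ hinj, Finset.card_univ, Fintype.card_coe]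
      rw [← hcard]
      refine hCT β hβ hirr V hfin hV _ ?_ ?_
      · intro t ht
        obtain ⟨W, -, rfl⟩ := Finset.mem_image.1 ht
        have hWT := (hF W W.2).1
        obtain ⟨h1, h2⟩ := hel W hWT (s W) (hs1 W) (hs2 W)
        exact ⟨hT0 W hWT (hs1 W), h1, by rw [← h2]; exact hs3 W⟩
      · intro t ht t' ht' hmem
        obtain ⟨W, -, rfl⟩ := Finset.mem_image.1 ht
        obtain ⟨W', -, rfl⟩ := Finset.mem_image.1 ht'
        have hWW : W' = W := by
          apply Subtype.ext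
          by_contra hne
          have h5 := hinter W' (hF W' W'.2).1 W (hF W W.2).1 hne
          have h6 : s W' ∈ (W' : Submodule ℚ ℂ) ⊓ (W : Submodule ℚ ℂ) :=
            ⟨hs1 W', by rw [hs3 W]; exact hmem⟩
          rw [h5, Submodule.mem_bot] at h6
          exact hs2 W' h6
        rw [hWW])
  obtain ⟨P, hP1, hP2⟩ := IUB_FN.finite_of_bound {W | W ∈ T ∧ Module.finrank ℚ W = 2}
    (2 ^ (Module.finrank ℚ V - 2)) (by
      intro F hF
      exact hCP β hβ hirr V hfin hV F fun W hW => ⟨(hF W hW).2, (hF W hW).1⟩)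
  have hLP : ∀ W, (W ∈ L ∨ W ∈ P) ↔ W ∈ T := by
    intro W
    rw [hL1, hP1]
    constructor
    · rintro (h | h)
      · exact h.1
      · exact h.1
    · intro h
      rcases hdim W h with h1 | h1
      · exact Or.inl ⟨h, h1⟩
      · exact Or.inr ⟨h, h1⟩
  refine ⟨L, P, hL2, hP2, fun W hW => ⟨hT0 W ((hL1 W).1 hW).1, ((hL1 W).1 hW).2⟩,
    fun W hW => ⟨hT0 W ((hP1 W).1 hW).1, ((hP1 W).1 hW).2⟩, ?_, ?_, ?_⟩
  · intro z hz hz0
    constructor
    · intro hdep
      have hb : Bad β z := ⟨hz0, hV z hz, hdep⟩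
      refine ⟨Vs β V z, (hLP _).2 ⟨z, hz, hb, rfl⟩, ?_⟩
      exact (hVA β hβ hirr V hV z hz hb).1
    · rintro ⟨W, hW, hzW⟩
      exact (hel W ((hLP W).1 hW) z hzW hz0).1.dep
  · intro W₁ W₂ h1 h2 hne
    exact hinter W₁ ((hLP W₁).1 h1) W₂ ((hLP W₂).1 h2) hne
  · intro hd
    have hspan : ∀ s ∈ V, Bad β s → Vs β V s = Submodule.span ℚ {s} := fun s hs hb =>
      (hVA β hβ hirr V hV s hs hb).2.2.2 hd
    have hone : ∀ W ∈ T, Module.finrank ℚ W = 1 := by
      rintro W ⟨s, hs, hb, rfl⟩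
      rw [hspan s hs hb]
      exact finrank_span_singleton hb.ne
    refine ⟨?_, ?_⟩
    · rw [Finset.eq_empty_iff_forall_notMem]
      intro W hW
      obtain ⟨h1, h2⟩ := (hP1 W).1 hW
      have h3 := hone W h1
      have h2' : Module.finrank ℚ W = 2 := h2
      omega
    · intro W₁ h1 W₂ h2 W₃ h3 h12 h13 h23 hle'
      -- the three lines contradict the landed theorem on planes
      obtain ⟨T', hT'1, hT'2, hT'3, hT'4⟩ := FL.final β hβ hirr V hfin hV
      obtain ⟨hT'5, hT'6⟩ := hT'4 hd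
      have hmemT' : ∀ W ∈ T, W ∈ T' := by
        rintro W ⟨s, hs, hb, rfl⟩
        obtain ⟨W', hW', hsW'⟩ := hT'3 s hs hb.ne hb.dep
        have h4 : Vs β V s = W' := by
          rw [hspan s hs hb]
          have hr := (hT'5 W' hW').1
          have hf : FiniteDimensional ℚ W' := Submodule.finiteDimensional_of_le (hT'2 W' hW').1
          refine Submodule.eq_of_le_of_finrank_eq ?_ ?_
          · rw [Submodule.span_singleton_le_iff_mem]
            exact hsW'
          · rw [finrank_span_singleton hb.ne, hr]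
        rw [h4]
        exact hW'
      exact hT'6 W₁ (hmemT' _ ((hLP W₁).1 (Or.inl h1))) W₂ (hmemT' _ ((hLP W₂).1 (Or.inl h2))) W₃
        (hmemT' _ ((hLP W₃).1 (Or.inl h3))) h12 h13 h23 hle'

end Pool.Agent.Work.MP_327059_nt.UB
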