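import Pool.Agent.Work.MP_327059_nt.UB.Stmts

/-!
# MP_327059_nt, block UB, item BA: affine form of Bezout's bound for quadrics
-/

set_option autoImplicit false

namespace Pool.Agent.Work.MP_327059_nt.UB

open MvPolynomial

namespace IUB_BA

/-- the degree of the members of the family -/
theorem deg (n e D : ℕ) (f : MvPolynomial (Fin n) ℚ) (g : Fin n → MvPolynomial (Fin n) ℚ)
    (b : Fin n →₀ ℕ) (hf : f.totalDegree ≤ e) (hg : ∀ i, (g i).totalDegree ≤ 2)
    (hb : b.degree ≤ D) : (f * ∏ i, g i ^ b i).totalDegree ≤ 2 * D + e := by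
  have h1 : (∏ i, g i ^ b i).totalDegree ≤ 2 * D := by
    calc (∏ i, g i ^ b i).totalDegree ≤ ∑ i, (g i ^ b i).totalDegree :=
          totalDegree_finsetProd _ _
      _ ≤ ∑ i, 2 * b i := by
          refine Finset.sum_le_sum fun i _ => ?_
          refine (totalDegree_pow _ _).trans ?_
          rw [mul_comm]
          exact Nat.mul_le_mul_right _ (hg i)
      _ = 2 * b.degree := by rw [← Finset.mul_sum, Finsupp.degree_eq_sum]
      _ ≤ 2 * D := Nat.mul_le_mul_left _ hb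
  have h2 := totalDegree_mul f (∏ i, g i ^ b i)
  omega

end IUB_BA

open IUB_BA in
/-- item BA -/
theorem ub_BA (hLG : StLG) (hDV : StDV) (hCO : StCO) (hLI : StLI) (hCH : StCH) : StBA := by
  classical
  intro n P 𝓕 h1 h2
  obtain ⟨g, hg1, hg2⟩ := hCH n P 𝓕 h1 h2
  obtain ⟨u, hu⟩ := hLG n P
  have hind := hLI n P g u (fun p hp i => (hg1 i).2 p hp) hg2 hu
  apply hCO n P.card (P.sup fun p => (u p).totalDegree)
  intro D
  obtain ⟨Bx, hB, hBc⟩ := hDV.1 n D
  obtain ⟨W, hW⟩ : ∃ W : P × (Fin n →₀ ℕ) → MvPolynomial (Fin n) ℚ,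
      W = fun q => u q.1 * ∏ i, g i ^ q.2 i := ⟨_, rfl⟩
  rw [← hW] at hind
  have hinj : Function.Injective
      (fun q : P × Bx => ((q.1, (q.2 : Fin n →₀ ℕ)) : P × (Fin n →₀ ℕ))) := by
    rintro ⟨a, b⟩ ⟨c, d⟩ h
    rw [Prod.mk.injEq] at h
    exact Prod.ext h.1 (Subtype.ext h.2)
  have h3 : LinearIndependent ℚ (fun q : P × Bx => W (q.1, (q.2 : Fin n →₀ ℕ))) :=
    hind.comp _ hinj
  have hdeg : ∀ q : P × Bx, (W (q.1, (q.2 : Fin n →₀ ℕ))).totalDegree ≤
      2 * D + P.sup fun p => (u p).totalDegree := by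
    intro q
    rw [hW]
    exact deg n _ D (u q.1) g q.2 (Finset.le_sup (f := fun p => (u p).totalDegree) q.1.2)
      (fun i => (hg1 i).1) ((hB _).mp q.2.2)
  have h4 := hDV.2 n (2 * D + P.sup fun p => (u p).totalDegree) (P × Bx) _ h3 hdeg
  rw [Fintype.card_prod, Fintype.card_coe, Fintype.card_coe, hBc] at h4
  exact h4

end Pool.Agent.Work.MP_327059_nt.UB
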