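import Pool.Agent.Work.MP_327059_nt.UB.Stmts

/-! Item [327059 UB BZ]: projective form of Bezout's bound for quadrics. -/

set_option autoImplicit false

namespace Pool.Agent.Work.MP_327059_nt.UB

open MvPolynomial

namespace IUB_BZ

variable {n : ℕ}

/-- The quadric in affine coordinates, with coefficients `a`, `b j`, `c j k`. -/
noncomputable def qd (a : ℚ) (b : Fin n → ℚ) (c : Fin n → Fin n → ℚ) : MvPolynomial (Fin n) ℚ :=
  C a + ∑ j, C (b j) * X j + ∑ j, ∑ k, C (c j k) * (X j * X k)

theorem qd_deg (a : ℚ) (b : Fin n → ℚ) (c : Fin n → Fin n → ℚ) : (qd a b c).totalDegree ≤ 2 := by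
  unfold qd
  have h1 : (C a : MvPolynomial (Fin n) ℚ).totalDegree ≤ 2 := by
    rw [totalDegree_C]
    exact Nat.zero_le _
  have h2 : (∑ j, C (b j) * X j : MvPolynomial (Fin n) ℚ).totalDegree ≤ 2 := by
    refine totalDegree_finsetSum_le fun j _ => ?_
    refine (totalDegree_mul _ _).trans ?_
    rw [totalDegree_C, totalDegree_X]
    norm_num
  have h3 : (∑ j, ∑ k, C (c j k) * (X j * X k) : MvPolynomial (Fin n) ℚ).totalDegree ≤ 2 := by
    refine totalDegree_finsetSum_le fun j _ => totalDegree_finsetSum_le fun k _ => ?_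
    refine (totalDegree_mul _ _).trans ?_
    rw [totalDegree_C, zero_add]
    refine (totalDegree_mul _ _).trans ?_
    rw [totalDegree_X, totalDegree_X]
  exact (totalDegree_add _ _).trans (max_le ((totalDegree_add _ _).trans (max_le h1 h2)) h3)

theorem qd_eval (a : ℚ) (b : Fin n → ℚ) (c : Fin n → Fin n → ℚ) (x : Fin n → ℚ) :
    eval x (qd a b c) = a + ∑ j, b j * x j + ∑ j, ∑ k, c j k * (x j * x k) := by
  unfold qd
  simp only [map_add, map_sum, map_mul, eval_C, eval_X]

theorem qd_pderiv (a : ℚ) (b : Fin n → ℚ) (c : Fin n → Fin n → ℚ) (x : Fin n → ℚ) (i : Fin n) :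
    eval x (pderiv i (qd a b c)) = b i + (∑ k, c i k * x k + ∑ j, c j i * x j) := by
  unfold qd
  have hX : ∀ j : Fin n, eval x (pderiv i (X j : MvPolynomial (Fin n) ℚ)) =
      if j = i then 1 else 0 := by
    intro j
    rw [pderiv_X, Pi.single_apply]
    split_ifs
    · rw [map_one]
    · rw [map_zero]
  have h1 : eval x (pderiv i (∑ j, C (b j) * X j : MvPolynomial (Fin n) ℚ)) = b i := by
    rw [map_sum, map_sum]
    have : ∀ j ∈ (Finset.univ : Finset (Fin n)),
        eval x (pderiv i (C (b j) * X j : MvPolynomial (Fin n) ℚ)) =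
        if j = i then b j else 0 := by
      intro j _
      rw [pderiv_C_mul, map_mul, eval_C, hX]
      split_ifs
      · rw [mul_one]
      · rw [mul_zero]
    rw [Finset.sum_congr rfl this, Finset.sum_ite_eq' Finset.univ i b, if_pos (Finset.mem_univ _)]
  have h2 : eval x (pderiv i (∑ j, ∑ k, C (c j k) * (X j * X k) : MvPolynomial (Fin n) ℚ)) =
      ∑ k, c i k * x k + ∑ j, c j i * x j := by
    rw [map_sum, map_sum]
    have : ∀ j ∈ (Finset.univ : Finset (Fin n)),
        eval x (pderiv i (∑ k, C (c j k) * (X j * X k) : MvPolynomial (Fin n) ℚ)) =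
        (if j = i then ∑ k, c j k * x k else 0) + c j i * x j := by
      intro j _
      rw [map_sum, map_sum]
      have h3 : ∀ k ∈ (Finset.univ : Finset (Fin n)),
          eval x (pderiv i (C (c j k) * (X j * X k) : MvPolynomial (Fin n) ℚ)) =
          (if j = i then c j k * x k else 0) + if k = i then c j k * x j else 0 := by
        intro k _
        rw [pderiv_C_mul, map_mul, eval_C, pderiv_mul, map_add, map_mul, map_mul, eval_X, eval_X,
          hX, hX, mul_add]
        congr 1
        · split_ifs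
          · ring
          · ring
        · split_ifs
          · ring
          · ring
      rw [Finset.sum_congr rfl h3, Finset.sum_add_distrib,
        Finset.sum_ite_eq' Finset.univ i (fun k => c j k * x j), if_pos (Finset.mem_univ _)]
      congr 1
      split_ifs
      · rfl
      · exact Finset.sum_const_zero
    rw [Finset.sum_congr rfl this, Finset.sum_add_distrib,
      Finset.sum_ite_eq' Finset.univ i (fun j => ∑ k, c j k * x k), if_pos (Finset.mem_univ _)]
  rw [map_add, map_add, map_add, map_add, h1, h2, pderiv_C, map_zero, zero_add]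

theorem bil {E : Type} [AddCommGroup E] [Module ℚ E] (B : E →ₗ[ℚ] E →ₗ[ℚ] ℚ) (b₀ : E)
    (e : Fin n → E) (x : Fin n → ℚ) :
    eval x (qd (B b₀ b₀) (fun j => B b₀ (e j) + B (e j) b₀) fun j k => B (e j) (e k)) =
      B (b₀ + ∑ j, x j • e j) (b₀ + ∑ j, x j • e j) := by
  rw [qd_eval]
  simp only [map_add, map_sum, map_smul, LinearMap.add_apply, LinearMap.sum_apply,
    LinearMap.smul_apply, smul_eq_mul, add_mul, Finset.sum_add_distrib, mul_add, Finset.mul_sum]
  have h1 : ∑ j, B b₀ (e j) * x j = ∑ j, x j * B b₀ (e j) :=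
    Finset.sum_congr rfl fun j _ => mul_comm _ _
  have h2 : ∑ j, B (e j) b₀ * x j = ∑ j, x j * B (e j) b₀ :=
    Finset.sum_congr rfl fun j _ => mul_comm _ _
  have h3 : ∑ j, ∑ k, B (e j) (e k) * (x j * x k) = ∑ j, ∑ k, x j * (x k * B (e k) (e j)) := by
    rw [Finset.sum_comm]
    refine Finset.sum_congr rfl fun j _ => Finset.sum_congr rfl fun k _ => ?_
    ring
  have h4 : ∑ j, ∑ k, x j * (x k * B (e j) (e k)) = ∑ j, ∑ k, x j * (x k * B (e k) (e j)) := by
    rw [Finset.sum_comm]
    refine Finset.sum_congr rfl fun j _ => Finset.sum_congr rfl fun k _ => ?_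
    ring
  first
    | linarith
    | (rw [h1, h2, h3]; ring)

theorem bilp {E : Type} [AddCommGroup E] [Module ℚ E] (B : E →ₗ[ℚ] E →ₗ[ℚ] ℚ) (b₀ : E)
    (e : Fin n → E) (x : Fin n → ℚ) (i : Fin n) :
    eval x (pderiv i (qd (B b₀ b₀) (fun j => B b₀ (e j) + B (e j) b₀)
      fun j k => B (e j) (e k))) =
      B (b₀ + ∑ j, x j • e j) (e i) + B (e i) (b₀ + ∑ j, x j • e j) := by
  rw [qd_pderiv]
  simp only [map_add, map_sum, map_smul, LinearMap.add_apply, LinearMap.sum_apply,
    LinearMap.smul_apply, smul_eq_mul]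
  have h1 : ∑ k, B (e i) (e k) * x k = ∑ k, x k * B (e i) (e k) :=
    Finset.sum_congr rfl fun j _ => mul_comm _ _
  have h2 : ∑ j, B (e j) (e i) * x j = ∑ j, x j * B (e j) (e i) :=
    Finset.sum_congr rfl fun j _ => mul_comm _ _
  rw [h1, h2]
  ring

end IUB_BZ

open IUB_BZ

theorem ub_BZ (hHF : StHF) (hBA : StBA) : StBZ := by
  intro n E _ _ _ hdim S 𝓑 hS0 hSt hB0 hgrad
  classical
  rcases S.eq_empty_or_nonempty with hSe | ⟨s₀, hs₀⟩
  · rw [hSe, Finset.card_empty]
    exact Nat.zero_le _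
  obtain ⟨h, hh⟩ := hHF E (S.image fun s => Submodule.span ℚ {s}) (by
    intro W hW
    obtain ⟨s, hs, rfl⟩ := Finset.mem_image.1 hW
    rw [Ne, Submodule.span_singleton_eq_bot]
    exact hS0 s hs)
  have hhs : ∀ s ∈ S, h s ≠ 0 := by
    intro s hs
    obtain ⟨w, hw, hw0⟩ := hh _ (Finset.mem_image_of_mem _ hs)
    obtain ⟨c, rfl⟩ := Submodule.mem_span_singleton.1 hw
    rw [map_smul, smul_eq_mul] at hw0
    exact right_ne_zero_of_mul hw0
  obtain ⟨b₀, hb₀⟩ : ∃ b₀ : E, h b₀ = 1 :=
    ⟨(h s₀)⁻¹ • s₀, by rw [map_smul, smul_eq_mul, inv_mul_cancel₀ (hhs s₀ hs₀)]⟩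
  have hrange : LinearMap.range h = ⊤ := by
    rw [LinearMap.range_eq_top]
    intro c
    exact ⟨c • b₀, by rw [map_smul, hb₀, smul_eq_mul, mul_one]⟩
  have hker : Module.finrank ℚ (LinearMap.ker h) = n := by
    have h1 := LinearMap.finrank_range_add_finrank_ker h
    rw [hrange, finrank_top, Module.finrank_self, hdim] at h1
    omega
  let e : Module.Basis (Fin n) ℚ (LinearMap.ker h) := Module.finBasisOfFinrankEq ℚ _ hker
  have hcoord : ∀ y : E, h y = 1 → ∃ x : Fin n → ℚ, b₀ + ∑ j, x j • (e j : E) = y := by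
    intro y hy
    have hm : y - b₀ ∈ LinearMap.ker h := by
      rw [LinearMap.mem_ker, map_sub, hy, hb₀, sub_self]
    refine ⟨fun j => e.repr ⟨y - b₀, hm⟩ j, ?_⟩
    have h1 := e.sum_repr ⟨y - b₀, hm⟩
    have h2 := congrArg (Subtype.val) h1
    rw [Submodule.coe_sum] at h2
    simp only [Submodule.coe_smul] at h2
    rw [h2]
    abel
  have hinv : ∀ s ∈ S, h ((h s)⁻¹ • s) = 1 := by
    intro s hs
    rw [map_smul, smul_eq_mul, inv_mul_cancel₀ (hhs s hs)]
  have hx : ∀ s : E, ∃ x : Fin n → ℚ, s ∈ S → b₀ + ∑ j, x j • (e j : E) = (h s)⁻¹ • s := by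
    intro s
    by_cases hs : s ∈ S
    · obtain ⟨x, hx⟩ := hcoord _ (hinv s hs)
      exact ⟨x, fun _ => hx⟩
    · exact ⟨0, fun h => absurd h hs⟩
  choose x hx using hx
  have hinj : ∀ s ∈ S, ∀ t ∈ S, x s = x t → s = t := by
    intro s hs t ht hst
    have h1 : (h s)⁻¹ • s = (h t)⁻¹ • t := by
      rw [← hx s hs, ← hx t ht, hst]
    have h2 : t = (h t * (h s)⁻¹) • s := by
      rw [mul_smul, h1, smul_smul, mul_inv_cancel₀ (hhs t ht), one_smul]
    exact (hSt s hs t ht (Submodule.mem_span_singleton.2 ⟨_, h2.symm⟩)).symm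
  have hcard : (S.image x).card = S.card :=
    Finset.card_image_of_injOn fun s hs t ht hst => hinj s hs t ht hst
  rw [← hcard]
  let f : (E →ₗ[ℚ] E →ₗ[ℚ] ℚ) → MvPolynomial (Fin n) ℚ := fun B =>
    qd (B b₀ b₀) (fun j => B b₀ (e j) + B (e j) b₀) fun j k => B (e j) (e k)
  refine hBA n (S.image x) (f '' 𝓑) ?_ ?_
  · rintro _ ⟨B, hB, rfl⟩
    refine ⟨qd_deg _ _ _, ?_⟩
    intro p hp
    obtain ⟨s, hs, rfl⟩ := Finset.mem_image.1 hp
    show eval (x s) (qd (B b₀ b₀) (fun j => B b₀ (e j) + B (e j) b₀) fun j k => B (e j) (e k)) = 0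
    rw [bil B b₀ (fun j => (e j : E)) (x s), hx s hs]
    simp only [map_smul, LinearMap.smul_apply, smul_eq_mul]
    rw [hB0 B hB s hs, mul_zero, mul_zero]
  · intro p hp v hv
    obtain ⟨s, hs, rfl⟩ := Finset.mem_image.1 hp
    obtain ⟨w, hw⟩ : ∃ w : E, w = ∑ j, v j • (e j : E) := ⟨_, rfl⟩
    have hwk : h w = 0 := by
      rw [hw, map_sum]
      refine Finset.sum_eq_zero fun j _ => ?_
      rw [map_smul, (e j).2, smul_zero]
    have h1 : ∀ B ∈ 𝓑, B s w + B w s = 0 := by
      intro B hB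
      have h2 := hv (f B) (Set.mem_image_of_mem _ hB)
      have h3 : ∑ j, v j * eval (x s) (pderiv j (f B)) =
          B ((h s)⁻¹ • s) w + B w ((h s)⁻¹ • s) := by
        have h4 : ∀ j, eval (x s) (pderiv j (f B)) = B ((h s)⁻¹ • s) (e j) +
            B (e j) ((h s)⁻¹ • s) := by
          intro j
          have h5 := bilp B b₀ (fun j => (e j : E)) (x s) j
          rw [hx s hs] at h5
          exact h5
        simp only [h4]
        rw [hw]
        simp only [map_sum, map_smul, LinearMap.sum_apply, LinearMap.smul_apply, smul_eq_mul,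
          mul_add, Finset.sum_add_distrib, Finset.mul_sum]
        congr 1
        · refine Finset.sum_congr rfl fun j _ => ?_
          ring
      rw [h3] at h2
      simp only [map_smul, LinearMap.smul_apply, smul_eq_mul] at h2
      rw [← mul_add] at h2
      exact (mul_eq_zero.1 h2).resolve_left (inv_ne_zero (hhs s hs))
    have h6 := hgrad s hs w h1
    obtain ⟨c, hc⟩ := Submodule.mem_span_singleton.1 h6
    have hc0 : c = 0 := by
      have h7 := hwk
      rw [← hc, map_smul, smul_eq_mul] at h7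
      exact (mul_eq_zero.1 h7).resolve_right (hhs s hs)
    rw [hc0, zero_smul] at hc
    have h8 : ∑ j, v j • e j = 0 := by
      apply Subtype.ext
      rw [Submodule.coe_sum]
      simp only [Submodule.coe_smul, Submodule.coe_zero]
      rw [← hw, ← hc]
    have h9 := Fintype.linearIndependent_iff.1 e.linearIndependent v h8
    funext j
    exact h9 j

end Pool.Agent.Work.MP_327059_nt.UB
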