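import Pool.Agent.Work.MP_327059_nt.UB.Stmts

/-!
# MP_327059_nt, block UB, item CH (helper3): choice of `n` combinations
-/

set_option autoImplicit false

namespace Pool.Agent.Work.MP_327059_nt.UB

open MvPolynomial

namespace IUB_CH

/-- finitely many surjective maps to `ℚ^n`: a common choice of independent vectors -/
lemma choose_indep {W : Type} [AddCommGroup W] [Module ℚ W] {n : ℕ} {ι : Type} (P : Finset ι)
    (L : ι → (W →ₗ[ℚ] (Fin n → ℚ))) (hL : ∀ p ∈ P, Function.Surjective (L p)) :
    ∀ k ≤ n, ∃ g : Fin k → W, ∀ p ∈ P, LinearIndependent ℚ (fun i => L p (g i)) := by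
  classical
  intro k
  induction k with
  | zero =>
    intro _
    exact ⟨Fin.elim0, fun p _ => linearIndependent_empty_type⟩
  | succ k ih =>
    intro hk
    obtain ⟨g, hg⟩ := ih (by omega)
    let B : ι → Submodule ℚ W := fun p =>
      (Submodule.span ℚ (Set.range (fun i => L p (g i)))).comap (L p)
    have hB : ∀ p ∈ P, B p ≠ ⊤ := by
      intro p hp htop
      have h1 : (Submodule.span ℚ (Set.range (fun i => L p (g i)))) = ⊤ := by
        rw [eq_top_iff]
        intro y _
        obtain ⟨w, rfl⟩ := hL p hp y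
        have h2 : w ∈ B p := by rw [htop]; trivial
        exact h2
      have h3 : Module.finrank ℚ (Submodule.span ℚ (Set.range (fun i => L p (g i)))) ≤ k := by
        have := finrank_range_le_card (R := ℚ) (fun i => L p (g i))
        simpa [Set.finrank] using this
      rw [h1, finrank_top, Module.finrank_fin_fun] at h3
      omega
    have hcov : ⋃ q ∈ P.image B, (q : Set W) ≠ Set.univ := by
      apply Subspace.biUnion_ne_univ_of_top_notMem
      intro h
      obtain ⟨p, hp, hpt⟩ := Finset.mem_image.1 h
      exact hB p hp hpt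
    obtain ⟨w, hw⟩ := (Set.ne_univ_iff_exists_notMem _).1 hcov
    refine ⟨Fin.cons w g, fun p hp => ?_⟩
    have h4 : (fun i => L p ((Fin.cons w g : Fin (k + 1) → W) i)) =
        (Fin.cons (L p w) (fun i => L p (g i)) : Fin (k + 1) → (Fin n → ℚ)) := by
      funext i
      refine Fin.cases ?_ (fun j => ?_) i
      · simp
      · simp
    rw [h4, linearIndependent_finCons]
    refine ⟨hg p hp, fun h5 => hw ?_⟩
    rw [Set.mem_iUnion₂]
    exact ⟨B p, Finset.mem_image_of_mem B hp, h5⟩

/-- the gradient at `p` -/
noncomputable def grad {n : ℕ} (p : Fin n → ℚ) : MvPolynomial (Fin n) ℚ →ₗ[ℚ] (Fin n → ℚ) where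
  toFun f := fun j => eval p (pderiv j f)
  map_add' f g := by
    funext j
    simp
  map_smul' c f := by
    funext j
    simp [MvPolynomial.smul_eval]

end IUB_CH

open IUB_CH in
theorem ub_CH : StCH := by
  intro n P 𝓕 h1 h2
  classical
  let S : Submodule ℚ (MvPolynomial (Fin n) ℚ) := Submodule.span ℚ 𝓕
  have hdeg : ∀ f ∈ S, f.totalDegree ≤ 2 := by
    have : S ≤ restrictTotalDegree (Fin n) ℚ 2 := by
      refine Submodule.span_le.2 fun f hf => ?_
      exact (mem_restrictTotalDegree _ _ _).2 (h1 f hf).1
    intro f hf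
    exact (mem_restrictTotalDegree _ _ _).1 (this hf)
  have hvan : ∀ f ∈ S, ∀ p ∈ P, eval p f = 0 := by
    intro f hf p hp
    induction hf using Submodule.span_induction with
    | mem x hx => exact (h1 x hx).2 p hp
    | zero => simp
    | add x y _ _ hx hy => rw [map_add, hx, hy, add_zero]
    | smul c x _ hx => rw [MvPolynomial.smul_eval, hx, mul_zero]
  have hsurj : ∀ p ∈ P, Function.Surjective ((grad p).comp S.subtype) := by
    intro p hp
    rw [← LinearMap.range_eq_top]
    by_contra hne
    obtain ⟨φ, hφ0, hφ⟩ := Submodule.exists_le_ker_of_lt_top _ (lt_top_iff_ne_top.2 hne)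
    apply hφ0
    have hv := h2 p hp (fun j => φ (fun i => if j = i then 1 else 0)) ?_
    · apply LinearMap.ext
      intro x
      rw [LinearMap.pi_apply_eq_sum_univ]
      simp only [LinearMap.zero_apply]
      refine Finset.sum_eq_zero fun j _ => ?_
      have := congrFun hv j
      simp only [Pi.zero_apply] at this
      rw [this, smul_zero]
    · intro f hf
      have hfS : f ∈ S := Submodule.subset_span hf
      have h3 : φ (grad p f) = 0 := by
        have h4 : grad p f ∈ LinearMap.range ((grad p).comp S.subtype) := ⟨⟨f, hfS⟩, rfl⟩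
        exact LinearMap.mem_ker.1 (hφ h4)
      rw [LinearMap.pi_apply_eq_sum_univ] at h3
      refine Eq.trans (Finset.sum_congr rfl fun j _ => ?_) h3
      show _ = eval p (pderiv j f) • _
      rw [smul_eq_mul, mul_comm]
  obtain ⟨g, hg⟩ := choose_indep P (fun p => (grad p).comp S.subtype) hsurj n le_rfl
  refine ⟨fun i => (g i : MvPolynomial (Fin n) ℚ), fun i => ⟨hdeg _ (g i).2, fun p hp =>
    hvan _ (g i).2 p hp⟩, fun p hp => ?_⟩
  have h5 : LinearIndependent ℚ
      (Matrix.of fun i j => eval p (pderiv j (g i : MvPolynomial (Fin n) ℚ))).row := hg p hp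
  rw [Matrix.linearIndependent_rows_iff_isUnit, Matrix.isUnit_iff_isUnit_det] at h5
  exact h5.ne_zero

end Pool.Agent.Work.MP_327059_nt.UB
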