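import Pool.Agent.Work.MP_327059_nt.UB.Stmts

/-!
# MP_327059_nt, block UB, item CO
-/

set_option autoImplicit false

namespace Pool.Agent.Work.MP_327059_nt.UB

open MvPolynomial

namespace IUB_CO

theorem nat_bound (n N e D : ℕ) (h : N * (D + n).choose n ≤ (2 * D + e + n).choose n) :
    N * (D + 1) ^ n ≤ (2 * D + e + n) ^ n := by
  have h1 : (D + 1) ^ n ≤ (D + n).descFactorial n := by
    have := Nat.pow_sub_le_descFactorial (D + n) n
    have e1 : D + n + 1 - n = D + 1 := by omega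
    rwa [e1] at this
  have h2 : (2 * D + e + n).descFactorial n ≤ (2 * D + e + n) ^ n := Nat.descFactorial_le_pow _ _
  calc N * (D + 1) ^ n ≤ N * (D + n).descFactorial n := Nat.mul_le_mul_left _ h1
    _ = n.factorial * (N * (D + n).choose n) := by
        rw [Nat.descFactorial_eq_factorial_mul_choose]; ring
    _ ≤ n.factorial * (2 * D + e + n).choose n := Nat.mul_le_mul_left _ h
    _ = (2 * D + e + n).descFactorial n := by rw [Nat.descFactorial_eq_factorial_mul_choose]
    _ ≤ (2 * D + e + n) ^ n := h2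

end IUB_CO

open IUB_CO in
theorem ub_CO : StCO := by
  intro n N e h
  have hlim : Filter.Tendsto (fun D : ℕ => (2 + ((e : ℝ) + n - 2) * (1 / ((D : ℝ) + 1))) ^ n)
      Filter.atTop (nhds ((2 + ((e : ℝ) + n - 2) * 0) ^ n)) := by
    apply Filter.Tendsto.pow
    apply Filter.Tendsto.const_add
    apply Filter.Tendsto.const_mul
    exact tendsto_one_div_add_atTop_nhds_zero_nat
  have hle : ∀ D : ℕ, (N : ℝ) ≤ (2 + ((e : ℝ) + n - 2) * (1 / ((D : ℝ) + 1))) ^ n := by
    intro D
    have h1 := nat_bound n N e D (h D)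
    have h2 : (N : ℝ) * ((D : ℝ) + 1) ^ n ≤ (2 * (D : ℝ) + e + n) ^ n := by exact_mod_cast h1
    have h3 : (0 : ℝ) < (D : ℝ) + 1 := by positivity
    have h4 : (2 + ((e : ℝ) + n - 2) * (1 / ((D : ℝ) + 1))) = (2 * (D : ℝ) + e + n) / ((D : ℝ) + 1) := by
      field_simp
      ring
    rw [h4, div_pow, le_div_iff₀ (by positivity)]
    exact h2
  have h5 : (N : ℝ) ≤ (2 + ((e : ℝ) + n - 2) * 0) ^ n := ge_of_tendsto' hlim hle
  rw [mul_zero, add_zero] at h5
  exact_mod_cast h5

end Pool.Agent.Work.MP_327059_nt.UB
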