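import Pool.Agent.Work.MP_327059_nt.UB.StmtsL

/-!
# MP_327059_nt, block UB, item CP: counting planes
-/

set_option autoImplicit false

namespace Pool.Agent.Work.MP_327059_nt.UB

open Pool.Agent.Work.MP_327059_nt.AA Pool.Agent.Work.MP_327059_nt.FL

namespace IUB_CP

/-- A non-zero functional has a kernel of codimension one. -/
theorem finrank_ker {E : Type} [AddCommGroup E] [Module ℚ E] [FiniteDimensional ℚ E]
    (h : E →ₗ[ℚ] ℚ) (w : E) (hw : h w ≠ 0) :
    Module.finrank ℚ (LinearMap.ker h) + 1 = Module.finrank ℚ E := by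
  have h0 : h ≠ 0 := by
    rintro rfl
    exact hw rfl
  have h1 : LinearMap.range h = ⊤ := LinearMap.range_eq_top.2 (LinearMap.surjective h0)
  have h2 := LinearMap.finrank_range_add_finrank_ker h
  rw [h1, finrank_top, Module.finrank_self] at h2
  omega

/-- The kernel of a functional on a plane. -/
theorem plane {W : Submodule ℚ ℂ} (hW : Module.finrank ℚ W = 2) (g : W →ₗ[ℚ] ℚ) (w : W)
    (hw : g w ≠ 0) :
    ∃ s : W, g s = 0 ∧ s ≠ 0 ∧ ∀ b : W, g b = 0 → (b : ℂ) ∈ Submodule.span ℚ {(s : ℂ)} := by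
  have : FiniteDimensional ℚ W := Module.finite_of_finrank_pos (by omega)
  have h1 := finrank_ker g w hw
  have h2 : Module.finrank ℚ (LinearMap.ker g) = 1 := by omega
  obtain ⟨v, hv, hv'⟩ := finrank_eq_one_iff'.1 h2
  refine ⟨v.1, v.2, fun h => hv (Subtype.ext h), ?_⟩
  intro b hb
  obtain ⟨c, hc⟩ := hv' ⟨b, hb⟩
  rw [Submodule.mem_span_singleton]
  refine ⟨c, ?_⟩
  have h3 := congrArg (fun z : LinearMap.ker g => ((z : W) : ℂ)) hc
  simpa using h3

end IUB_CP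

open IUB_CP

/-- item CP -/
theorem ub_CP (hHF : StHF) (hVA : StVA) (hCT : StCT) : StCP := by
  classical
  intro β hβ hβ' V hV hexp 𝒲 h𝒲
  rcases 𝒲.eq_empty_or_nonempty with rfl | hne
  · simp
  have hle : ∀ W ∈ 𝒲, W ≤ V := by
    intro W hW
    obtain ⟨-, s, -, -, rfl⟩ := h𝒲 W hW
    intro b hb
    exact hb.1
  obtain ⟨h, hh⟩ := hHF V (𝒲.image fun W => W.comap V.subtype) (by
    intro U hU
    obtain ⟨W, hW, rfl⟩ := Finset.mem_image.1 hU
    intro hbot
    have hWb : W = ⊥ := by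
      rw [eq_bot_iff]
      intro x hx
      have h1 : (⟨x, hle W hW hx⟩ : V) ∈ W.comap V.subtype := hx
      rw [hbot, Submodule.mem_bot] at h1
      rw [Submodule.mem_bot]
      exact congrArg Subtype.val h1
    have h2 := (h𝒲 W hW).1
    rw [hWb, finrank_bot] at h2
    omega)
  have hh' : ∀ W ∈ 𝒲, ∃ w : V, (w : ℂ) ∈ W ∧ h w ≠ 0 := by
    intro W hW
    obtain ⟨w, hw, hw'⟩ := hh _ (Finset.mem_image_of_mem _ hW)
    exact ⟨w, hw, hw'⟩
  obtain ⟨V', hV'⟩ : ∃ V' : Submodule ℚ ℂ, V' = (LinearMap.ker h).map V.subtype := ⟨_, rfl⟩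
  have hmem : ∀ x : V, h x = 0 → (x : ℂ) ∈ V' := by
    intro x hx
    rw [hV']
    exact ⟨x, hx, rfl⟩
  have hmem' : ∀ x : V, (x : ℂ) ∈ V' → h x = 0 := by
    intro x hx
    rw [hV'] at hx
    obtain ⟨y, hy, hyx⟩ := hx
    have h1 : y = x := Subtype.ext hyx
    rw [← h1]
    exact hy
  have hV'V : V' ≤ V := by
    rw [hV']
    rintro x ⟨y, -, rfl⟩
    exact y.2
  have hfin : FiniteDimensional ℚ V' := by
    rw [hV']
    infer_instance
  have hrank : Module.finrank ℚ V' + 1 = Module.finrank ℚ V := by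
    obtain ⟨W, hW⟩ := hne
    obtain ⟨w, -, hw⟩ := hh' W hW
    rw [hV', Submodule.finrank_map_subtype_eq]
    exact finrank_ker h w hw
  have key : ∀ W ∈ 𝒲, ∃ s : ℂ, s ∈ V' ∧ Bad β s ∧ Vs β V s = W ∧
      Vs β V' s = Submodule.span ℚ {s} := by
    intro W hW
    obtain ⟨hW2, s0, hs0V, hs0, hWs⟩ := h𝒲 W hW
    obtain ⟨w, hwW, hw⟩ := hh' W hW
    obtain ⟨s, hs1, hs2, hs3⟩ := plane hW2 (h.comp (Submodule.inclusion (hle W hW)))
      ⟨w, hwW⟩ (by
        have h1 : Submodule.inclusion (hle W hW) ⟨(w : ℂ), hwW⟩ = w := Subtype.ext rfl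
        rw [LinearMap.comp_apply, h1]
        exact hw)
    have hsne : (s : ℂ) ≠ 0 := fun h0 => hs2 (Subtype.ext h0)
    have hsV' : (s : ℂ) ∈ V' := hmem (Submodule.inclusion (hle W hW) s) hs1
    obtain ⟨-, hva, -, -⟩ := hVA β hβ hβ' V hexp s0 hs0V hs0
    have hsW : (s : ℂ) ∈ Vs β V s0 := by
      rw [← hWs]
      exact s.2
    obtain ⟨hbad, hVs⟩ := hva s hsW hsne
    have hVsW : Vs β V s = W := by rw [hVs, hWs]
    refine ⟨s, hsV', hbad, hVsW, ?_⟩
    apply le_antisymm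
    · intro b hb
      rw [mem_Vs] at hb
      have hbW : b ∈ W := by
        rw [← hVsW, mem_Vs]
        exact ⟨hV'V hb.1, hb.2⟩
      have h2 := hs3 ⟨b, hbW⟩ (by
        rw [LinearMap.comp_apply]
        exact hmem' _ hb.1)
      exact h2
    · rw [Submodule.span_singleton_le_iff_mem, mem_Vs]
      have h3 : (s : ℂ) ∈ Vs β V s := by
        rw [hVsW]
        exact s.2
      rw [mem_Vs] at h3
      exact ⟨hsV', h3.2⟩
  choose! f hf using key
  have hinj : Set.InjOn f (𝒲 : Set (Submodule ℚ ℂ)) := by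
    intro W hW W' hW' hWW
    rw [← (hf W hW).2.2.1, ← (hf W' hW').2.2.1, hWW]
  have hcard : (𝒲.image f).card = 𝒲.card := Finset.card_image_of_injOn hinj
  have hfinal := hCT β hβ hβ' V' hfin (fun z hz => hexp z (hV'V hz)) (𝒲.image f) (by
    intro s hs
    obtain ⟨W, hW, rfl⟩ := Finset.mem_image.1 hs
    exact ⟨(hf W hW).1, (hf W hW).2.1, (hf W hW).2.2.2⟩) (by
    intro s hs t ht hts
    obtain ⟨W, hW, rfl⟩ := Finset.mem_image.1 hs
    obtain ⟨W', hW', rfl⟩ := Finset.mem_image.1 ht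
    have hsV : f W ∈ V := hV'V (hf W hW).1
    obtain ⟨hself, hva, -, -⟩ := hVA β hβ hβ' V hexp (f W) hsV (hf W hW).2.1
    have htW : f W' ∈ Vs β V (f W) :=
      (Submodule.span_singleton_le_iff_mem _ _).2 hself hts
    have h1 := (hva (f W') htW (hf W' hW').2.1.ne).2
    rw [(hf W' hW').2.2.1, (hf W hW).2.2.1] at h1
    rw [h1])
  rw [hcard] at hfinal
  refine hfinal.trans (le_of_eq ?_)
  congr 1
  omega

end Pool.Agent.Work.MP_327059_nt.UB
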