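import Pool.Agent.Work.MP_327059_nt.UB.StmtsL

/-!
# MP_327059_nt, block UB, item CT: counting lines
-/

set_option autoImplicit false

namespace Pool.Agent.Work.MP_327059_nt.UB

open Pool.Agent.Work.MP_327059_nt.AA Pool.Agent.Work.MP_327059_nt.FL

namespace IUB_CT

/-- the form `(z, w) ↦ φ (bf β D D' z w)` on `V` -/
noncomputable def fm (β : ℂ) (V : Submodule ℚ ℂ) (D D' : Derivation ℚ ℂ ℂ) (φ : ℂ →ₗ[ℚ] ℚ) :
    V →ₗ[ℚ] V →ₗ[ℚ] ℚ :=
  LinearMap.mk₂ ℚ (fun z w => φ (bf β D D' (z : ℂ) (w : ℂ)))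
    (by
      intro z z' w
      rw [← map_add]
      congr 1
      simp only [bf, Submodule.coe_add, map_add]
      ring)
    (by
      intro c z w
      rw [← map_smul]
      congr 1
      simp only [bf, Submodule.coe_smul, Derivation.map_smul, smul_sub, smul_mul_assoc])
    (by
      intro z w w'
      rw [← map_add]
      congr 1
      simp only [bf, Submodule.coe_add, map_add]
      ring)
    (by
      intro c z w
      rw [← map_smul]
      congr 1
      simp only [bf, Submodule.coe_smul, map_smul, smul_sub, mul_smul_comm])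

theorem fm_apply (β : ℂ) (V : Submodule ℚ ℂ) (D D' : Derivation ℚ ℂ ℂ) (φ : ℂ →ₗ[ℚ] ℚ)
    (z w : V) : fm β V D D' φ z w = φ (bf β D D' (z : ℂ) (w : ℂ)) := rfl

theorem span_coe (V : Submodule ℚ ℂ) (s b : V) :
    b ∈ Submodule.span ℚ {s} ↔ (b : ℂ) ∈ Submodule.span ℚ {(s : ℂ)} := by
  rw [Submodule.mem_span_singleton, Submodule.mem_span_singleton]
  constructor
  · rintro ⟨a, h⟩
    exact ⟨a, by rw [← h]; rfl⟩
  · rintro ⟨a, h⟩
    exact ⟨a, Subtype.ext (by rw [← h]; rfl)⟩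

end IUB_CT

open IUB_CT in
theorem ub_CT (hBD : StBD) (hND : StND) (hBZ : StBZ) : StCT := by
  classical
  intro β hβ hβ' V hfin hV S hS hpr
  rcases S.eq_empty_or_nonempty with rfl | ⟨s₀, hs₀⟩
  · simp
  have hVn : 0 < Module.finrank ℚ V := by
    rw [Module.finrank_pos_iff_exists_ne_zero]
    refine ⟨⟨s₀, (hS s₀ hs₀).1⟩, ?_⟩
    intro h
    exact (hS s₀ hs₀).2.1.ne (congrArg Subtype.val h)
  obtain ⟨n, hn⟩ : ∃ n, Module.finrank ℚ V = n + 1 := ⟨Module.finrank ℚ V - 1, by omega⟩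
  have hcard : (S.subtype (fun x => x ∈ V)).card = S.card := by
    rw [Finset.card_subtype, Finset.filter_true_of_mem fun s hs => (hS s hs).1]
  have key := hBZ n V hn (S.subtype (fun x => x ∈ V))
    {B | ∃ (D D' : Derivation ℚ ℂ ℂ) (φ : ℂ →ₗ[ℚ] ℚ), B = fm β V D D' φ} ?_ ?_ ?_ ?_
  · rw [hcard] at key
    rw [hn, Nat.add_sub_cancel]
    exact key
  · intro s hs h
    rw [Finset.mem_subtype] at hs
    exact (hS s hs).2.1.ne (congrArg Subtype.val h)
  · intro s hs t ht hst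
    rw [Finset.mem_subtype] at hs ht
    exact Subtype.ext (hpr s hs t ht ((span_coe V s t).1 hst))
  · rintro B ⟨D, D', φ, rfl⟩ s hs
    rw [Finset.mem_subtype] at hs
    rw [fm_apply, ((hBD β s).1 (hS s hs).2.1).2.2 D D', map_zero]
  · intro s hs b hB
    rw [Finset.mem_subtype] at hs
    obtain ⟨-, hbad, hVs⟩ := hS s hs
    rw [span_coe, ← hVs, mem_Vs]
    refine ⟨b.2, hND β s b hβ hβ' hbad ?_⟩
    intro D D'
    rw [← Module.forall_dual_apply_eq_zero_iff ℚ]
    intro φ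
    have := hB (fm β V D D' φ) ⟨D, D', φ, rfl⟩
    rw [fm_apply, fm_apply, ← map_add] at this
    exact this

end Pool.Agent.Work.MP_327059_nt.UB
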