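import Pool.Agent.Work.MP_327059_nt.UB.Stmts

set_option autoImplicit false

namespace Pool.Agent.Work.MP_327059_nt.UB

open MvPolynomial

namespace IUB_DV

lemma mem_ad (n k : ℕ) (b : Fin n →₀ ℕ) :
    b ∈ (Finset.univ : Finset (Fin n)).finsuppAntidiag k ↔ b.degree = k := by
  rw [Finset.mem_finsuppAntidiag, Finsupp.degree_eq_sum]
  simp

lemma boxes (n D : ℕ) : ∃ Bx : Finset (Fin n →₀ ℕ), (∀ b, b ∈ Bx ↔ b.degree ≤ D) ∧
    Bx.card = (D + n).choose n := by
  classical
  refine ⟨(Finset.range (D + 1)).biUnion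
    (fun k => (Finset.univ : Finset (Fin n)).finsuppAntidiag k), ?_, ?_⟩
  · intro b
    simp only [Finset.mem_biUnion, Finset.mem_range, mem_ad]
    constructor
    · rintro ⟨k, hk, h⟩
      omega
    · intro h
      exact ⟨b.degree, by omega, rfl⟩
  · rw [Finset.card_biUnion]
    · rw [← Nat.sum_range_multichoose]
      refine Finset.sum_congr rfl ?_
      intro k _
      rw [Finset.card_finsuppAntidiag_nat_eq_multichoose, Finset.card_univ, Fintype.card_fin]
    · intro i _ j _ hij
      refine Finset.disjoint_left.mpr ?_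
      intro b h1 h2
      rw [mem_ad] at h1 h2
      exact hij (h1.symm.trans h2)

lemma dim (n m : ℕ) (ι : Type) [Fintype ι] (w : ι → MvPolynomial (Fin n) ℚ)
    (hw : LinearIndependent ℚ w) (hd : ∀ i, (w i).totalDegree ≤ m) :
    Fintype.card ι ≤ (m + n).choose n := by
  classical
  obtain ⟨Bx, hB, hc⟩ := boxes n m
  have hsub : ∀ i, w i ∈ Submodule.span ℚ
      ((Bx.image fun b => monomial b (1 : ℚ) : Finset (MvPolynomial (Fin n) ℚ)) :
        Set (MvPolynomial (Fin n) ℚ)) := by
    intro i
    rw [(w i).as_sum]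
    refine Submodule.sum_mem _ ?_
    intro b hb
    have h1 : b ∈ Bx := by
      rw [hB]
      refine le_trans ?_ (hd i)
      have h2 := le_totalDegree hb
      rw [Finsupp.degree_eq_sum]
      rw [Finsupp.sum_fintype _ _ (fun _ => rfl)] at h2
      exact h2
    have h3 : monomial b (coeff b (w i)) = (coeff b (w i)) • monomial b (1 : ℚ) := by
      rw [smul_monomial, smul_eq_mul, mul_one]
    rw [h3]
    refine Submodule.smul_mem _ _ (Submodule.subset_span ?_)
    rw [Finset.coe_image]
    exact ⟨b, h1, rfl⟩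
  have hle : Submodule.span ℚ (Set.range w) ≤ Submodule.span ℚ
      ((Bx.image fun b => monomial b (1 : ℚ) : Finset (MvPolynomial (Fin n) ℚ)) :
        Set (MvPolynomial (Fin n) ℚ)) := by
    rw [Submodule.span_le]
    rintro _ ⟨i, rfl⟩
    exact hsub i
  have h1 : Module.finrank ℚ (Submodule.span ℚ (Set.range w)) = Fintype.card ι :=
    finrank_span_eq_card hw
  have h2 := Submodule.finrank_mono hle
  have h3 := finrank_span_finset_le_card (R := ℚ)
    (Bx.image fun b => monomial b (1 : ℚ) : Finset (MvPolynomial (Fin n) ℚ))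
  have h4 : (Bx.image fun b => monomial b (1 : ℚ)).card ≤ Bx.card := Finset.card_image_le
  have h5 : Set.finrank ℚ ((Bx.image fun b => monomial b (1 : ℚ) :
      Finset (MvPolynomial (Fin n) ℚ)) : Set (MvPolynomial (Fin n) ℚ)) =
      Module.finrank ℚ (Submodule.span ℚ
      ((Bx.image fun b => monomial b (1 : ℚ) : Finset (MvPolynomial (Fin n) ℚ)) :
        Set (MvPolynomial (Fin n) ℚ))) := rfl
  omega

end IUB_DV

theorem ub_DV : StDV := by
  refine ⟨IUB_DV.boxes, ?_⟩
  intro n m ι _ w hw hd
  exact IUB_DV.dim n m ι w hw hd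

end Pool.Agent.Work.MP_327059_nt.UB
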