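import Pool.Agent.Work.MP_327059_nt.UB.Stmts

/-!
# MP_327059_nt, block UB, item HF: a functional which does not vanish on finitely many subspaces
-/

set_option autoImplicit false

namespace Pool.Agent.Work.MP_327059_nt.UB

open MvPolynomial

theorem ub_HF : StHF := by
  intro E _ _ _ 𝒲 h𝒲
  have hex : ∀ W : {W // W ∈ 𝒲}, ∃ w : E, w ∈ W.1 ∧ w ≠ 0 := fun W =>
    (Submodule.ne_bot_iff W.1).1 (h𝒲 W.1 W.2)
  choose w hwW hw0 using hex
  obtain ⟨f, hf⟩ := Module.exists_dual_forall_apply_ne_zero (K := ℚ) w hw0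
  exact ⟨f, fun W hW => ⟨w ⟨W, hW⟩, hwW ⟨W, hW⟩, hf ⟨W, hW⟩⟩⟩

end Pool.Agent.Work.MP_327059_nt.UB
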