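import Pool.Agent.Work.MP_327059_nt.UB.Stmts

/-!
# MP_327059_nt, block UB, item LG: Lagrange polynomials
-/

set_option autoImplicit false

namespace Pool.Agent.Work.MP_327059_nt.UB

open MvPolynomial

namespace IUB_LG

theorem factor {n : ℕ} (p r : Fin n → ℚ) (h : p ≠ r) :
    ∃ f : MvPolynomial (Fin n) ℚ, eval p f = 1 ∧ eval r f = 0 := by
  obtain ⟨i, hi⟩ := Function.ne_iff.mp h
  refine ⟨(X i - C (r i)) * C (p i - r i)⁻¹, ?_, ?_⟩
  · rw [map_mul, map_sub, eval_X, eval_C, eval_C]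
    exact mul_inv_cancel₀ (sub_ne_zero.mpr hi)
  · rw [map_mul, map_sub, eval_X, eval_C, sub_self, zero_mul]

end IUB_LG

open IUB_LG in
theorem ub_LG : StLG := by
  classical
  intro n P
  have key : ∀ p r : Fin n → ℚ, ∃ f : MvPolynomial (Fin n) ℚ, p ≠ r → eval p f = 1 ∧ eval r f = 0 := by
    intro p r
    by_cases h : p = r
    · exact ⟨0, fun h' => absurd h h'⟩
    · obtain ⟨f, hf⟩ := factor p r h
      exact ⟨f, fun _ => hf⟩
  choose f hf using key
  refine ⟨fun p => ∏ r ∈ P.erase p, f p r, ?_⟩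
  intro p hp p' hp'
  rw [map_prod]
  split_ifs with h
  · subst h
    exact Finset.prod_eq_one fun r hr => (hf p r (Finset.ne_of_mem_erase hr).symm).1
  · exact Finset.prod_eq_zero (Finset.mem_erase.mpr ⟨Ne.symm h, hp'⟩) (hf p p' h).2

end Pool.Agent.Work.MP_327059_nt.UB
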