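import Pool.Agent.Work.MP_327059_nt.UB.Stmts

/-!
# MP_327059_nt, block UB, item LI: independence
-/

set_option autoImplicit false

namespace Pool.Agent.Work.MP_327059_nt.UB

open MvPolynomial

namespace IUB_LI

variable {n : ℕ}

/-- restriction to the line `p + T v` -/
noncomputable def Psi (p v : Fin n → ℚ) : MvPolynomial (Fin n) ℚ →ₐ[ℚ] Polynomial ℚ :=
  aeval fun j => Polynomial.C (p j) + Polynomial.C (v j) * Polynomial.X

theorem psi_X (p v : Fin n → ℚ) (j : Fin n) :
    Psi p v (X j) = Polynomial.C (p j) + Polynomial.C (v j) * Polynomial.X := by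
  rw [Psi, aeval_X]

theorem psi_C (p v : Fin n → ℚ) (a : ℚ) : Psi p v (C a) = Polynomial.C a := by
  rw [Psi, aeval_C]; rfl

theorem psi_zero (p v : Fin n → ℚ) (f : MvPolynomial (Fin n) ℚ) :
    (Psi p v f).coeff 0 = eval p f := by
  induction f using MvPolynomial.induction_on with
  | C a => rw [psi_C, Polynomial.coeff_C_zero, eval_C]
  | add f g hf hg => rw [map_add, Polynomial.coeff_add, hf, hg, map_add]
  | mul_X f j hf =>
    rw [map_mul, Polynomial.mul_coeff_zero, hf, psi_X, map_mul, eval_X]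
    congr 1
    simp

theorem psi_one (p v : Fin n → ℚ) (f : MvPolynomial (Fin n) ℚ) :
    (Psi p v f).coeff 1 = ∑ j, v j * eval p (pderiv j f) := by
  induction f using MvPolynomial.induction_on with
  | C a =>
    rw [psi_C, Polynomial.coeff_C_succ]
    simp
  | add f g hf hg =>
    rw [map_add, Polynomial.coeff_add, hf, hg, ← Finset.sum_add_distrib]
    refine Finset.sum_congr rfl fun j _ => ?_
    rw [map_add, map_add]; ring
  | mul_X f i hf =>
    rw [map_mul, Polynomial.mul_coeff_one, hf, psi_zero, psi_X]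
    have h0 : (Polynomial.C (p i) + Polynomial.C (v i) * Polynomial.X : Polynomial ℚ).coeff 0 = p i := by simp
    have h1 : (Polynomial.C (p i) + Polynomial.C (v i) * Polynomial.X : Polynomial ℚ).coeff 1 = v i := by
      rw [Polynomial.coeff_add, Polynomial.coeff_C_succ, zero_add, Polynomial.coeff_C_mul, Polynomial.coeff_X_one,
        mul_one]
    rw [h0, h1]
    have h2 : ∀ j, v j * eval p (pderiv j (f * X i)) =
        v j * (eval p (pderiv j f) * p i) + (if j = i then v j * eval p f else 0) := by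
      intro j
      rw [Derivation.leibniz, pderiv_X, map_add, smul_eq_mul, smul_eq_mul, map_mul, map_mul, eval_X]
      by_cases hji : j = i
      · subst hji
        rw [Pi.single_eq_same, if_pos rfl, map_one]
        ring
      · rw [Pi.single_eq_of_ne (Ne.symm hji), if_neg hji, map_zero]
        ring
    rw [Finset.sum_congr rfl fun j _ => h2 j, Finset.sum_add_distrib, Finset.sum_ite_eq' Finset.univ i,
      if_pos (Finset.mem_univ i), Finset.sum_mul]
    rw [add_comm]
    congr 1
    · exact Finset.sum_congr rfl fun j _ => by ring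
    · ring

/-- a product of powers of polynomials without constant term -/
theorem prod_eq (A : Fin n → Polynomial ℚ) (hA : ∀ i, (A i).coeff 0 = 0) (b : Fin n →₀ ℕ) :
    ∏ i, A i ^ b i = (∏ i, (A i).divX ^ b i) * Polynomial.X ^ b.degree := by
  have h1 : ∀ i, A i = (A i).divX * Polynomial.X := by
    intro i
    have := Polynomial.divX_mul_X_add (A i)
    rw [hA i, map_zero, add_zero] at this
    exact this.symm
  have h2 : b.degree = ∑ i, b i := Finsupp.degree_eq_sum b
  rw [h2, ← Finset.prod_pow_eq_pow_sum, ← Finset.prod_mul_distrib]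
  refine Finset.prod_congr rfl fun i _ => ?_
  rw [← mul_pow, ← h1 i]

theorem coeff_m (A : Fin n → Polynomial ℚ) (hA : ∀ i, (A i).coeff 0 = 0) (U : Polynomial ℚ) (b : Fin n →₀ ℕ)
    (m : ℕ) (hm : m ≤ b.degree) :
    (U * ∏ i, A i ^ b i).coeff m = if b.degree = m then U.coeff 0 * ∏ i, (A i).coeff 1 ^ b i else 0 := by
  rw [prod_eq A hA b, ← mul_assoc, Polynomial.coeff_mul_X_pow']
  by_cases h : b.degree = m
  · rw [if_pos h.le, if_pos h, h, Nat.sub_self, Polynomial.mul_coeff_zero]
    congr 1
    rw [Polynomial.coeff_zero_eq_eval_zero, Polynomial.eval_prod]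
    refine Finset.prod_congr rfl fun i _ => ?_
    rw [Polynomial.eval_pow, ← Polynomial.coeff_zero_eq_eval_zero, Polynomial.coeff_divX]
  · rw [if_neg (by omega), if_neg h]

end IUB_LI

open IUB_LI in
theorem ub_LI : StLI := by
  intro n P g u hg hdet hu
  classical
  rw [linearIndependent_iff']
  intro s c hs
  by_contra hcon
  push Not at hcon
  obtain ⟨q1, hq1, hcq1⟩ := hcon
  obtain ⟨q0, hq0, hmin⟩ := Finset.exists_min_image (s.filter fun q => c q ≠ 0) (fun q => q.2.degree)
    ⟨q1, Finset.mem_filter.2 ⟨hq1, hcq1⟩⟩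
  obtain ⟨hq0s, hq0c⟩ := Finset.mem_filter.1 hq0
  set p0 : Fin n → ℚ := (q0.1 : Fin n → ℚ) with hp0
  have hp0P : p0 ∈ P := q0.1.2
  set m := q0.2.degree with hm
  set M : Matrix (Fin n) (Fin n) ℚ := Matrix.of fun i j => eval p0 (pderiv j (g i)) with hM
  have hMdet : M.det ≠ 0 := hdet p0 hp0P
  set F : MvPolynomial (Fin n) ℚ :=
    ∑ q ∈ s.filter (fun q => (q.1 : Fin n → ℚ) = p0 ∧ q.2.degree = m), monomial q.2 (c q) with hF
  -- the relation on the line
  have key : ∀ v : Fin n → ℚ, eval (M.mulVec v) F = 0 := by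
    intro v
    have h1 : (Psi p0 v (∑ q ∈ s, c q • (u q.1 * ∏ i, g i ^ q.2 i))).coeff m = 0 := by
      rw [hs, map_zero, Polynomial.coeff_zero]
    rw [map_sum, Polynomial.finsetSum_coeff] at h1
    rw [hF, map_sum, Finset.sum_filter]
    refine Eq.trans (Finset.sum_congr rfl fun q hq => ?_) h1
    rw [map_smul, Polynomial.coeff_smul, smul_eq_mul, map_mul, map_prod]
    by_cases hc : c q = 0
    · rw [hc, zero_mul]
      split_ifs
      · rw [map_zero, map_zero]
      · rfl
    have hmq : m ≤ q.2.degree := hmin q (Finset.mem_filter.2 ⟨hq, hc⟩)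
    have hA : ∀ i, (Psi p0 v (g i)).coeff 0 = 0 := fun i => by rw [psi_zero, hg p0 hp0P i]
    have h2 := coeff_m (fun i => Psi p0 v (g i)) hA (Psi p0 v (u q.1)) q.2 m hmq
    have h3 : ∏ i, Psi p0 v (g i ^ q.2 i) = ∏ i, (Psi p0 v (g i)) ^ q.2 i :=
      Finset.prod_congr rfl fun i _ => map_pow _ _ _
    rw [h3, h2, psi_zero, hu _ q.1.2 p0 hp0P]
    by_cases h4 : q.2.degree = m
    · by_cases h5 : (q.1 : Fin n → ℚ) = p0
      · rw [if_pos ⟨h5, h4⟩, if_pos h4, if_pos h5, one_mul, eval_monomial, Finsupp.prod_fintype _ _ (by simp)]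
        congr 1
        refine Finset.prod_congr rfl fun i _ => ?_
        rw [psi_one]
        congr 1
        rw [Matrix.mulVec, dotProduct]
        exact Finset.sum_congr rfl fun j _ => by rw [hM, Matrix.of_apply]; ring
      · rw [if_neg (fun h => h5 h.1), if_pos h4, if_neg h5, zero_mul, mul_zero]
    · rw [if_neg (fun h => h4 h.2), if_neg h4, mul_zero]
  have hF0 : F = 0 := by
    refine MvPolynomial.funext fun w => ?_
    rw [map_zero]
    have h1 := key (M⁻¹.mulVec w)
    rwa [Matrix.mulVec_mulVec, Matrix.mul_nonsing_inv M (isUnit_iff_ne_zero.2 hMdet), Matrix.one_mulVec] at h1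
  have h6 : MvPolynomial.coeff q0.2 F = c q0 := by
    rw [hF, coeff_sum, Finset.sum_eq_single q0]
    · rw [coeff_monomial, if_pos rfl]
    · intro q hq hne
      rw [coeff_monomial, if_neg]
      intro h
      apply hne
      exact Prod.ext (Subtype.ext (Finset.mem_filter.1 hq).2.1) h
    · intro hq
      exact absurd (Finset.mem_filter.2 ⟨hq0s, rfl, rfl⟩) hq
  rw [hF0, MvPolynomial.coeff_zero] at h6
  exact hq0c h6.symm

end Pool.Agent.Work.MP_327059_nt.UB
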