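import Pool.Agent.Work.MP_327059_nt.UB.StmtsL

/-!
# MP_327059_nt, block UB, item VA (helper94): the subspaces `Vs`
-/

set_option autoImplicit false

namespace Pool.Agent.Work.MP_327059_nt.UB

open Pool.Agent.ED Pool.Agent.Work.MP_327059_nt.AA Pool.Agent.Work.MP_327059_nt.FL

namespace IUB_VA

/-- Exchange. -/
theorem swap {s b : ℂ} (hb : Transcendental ℚ b) (h : Alg s b) : Alg b s := by
  apply alg_of_der
  intro D hD
  obtain ⟨D', hD'⟩ := exists_der_one hb
  let X : Derivation ℚ ℂ ℂ := D' s • D - D s • D'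
  have hX : ∀ w, X w = D' s * D w - D s * D' w := fun w => rfl
  have h1 := der_alg h X (by rw [hX]; ring)
  rw [hX, hD, hD'] at h1
  linear_combination -h1

/-- The quadratic case (as in `FinB_core`). -/
theorem core2 (β : ℂ) (hβ : IsAlgebraic ℚ β) (hirr : ∀ q : ℚ, β ≠ q) (t n : ℚ)
    (hq : β ^ 2 = t * β - n) (x y : ℂ) (hx : IsAlgebraic ℚ (Complex.exp x))
    (hy : IsAlgebraic ℚ (Complex.exp y))
    (hlin : ∀ a b : ℚ, (a : ℂ) * x + b * y = 0 → a = 0 ∧ b = 0)
    (hu : Alg x (Complex.exp (β * x))) (hxy : Alg x y)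
    (hvx : Alg x (Complex.exp (β * y))) : False := by
  have hx0 : x ≠ 0 := by
    intro h0
    have := (hlin 1 0 (by rw [h0]; simp)).1
    exact one_ne_zero this
  have hxt : Transcendental ℚ x := fun h => LW.transcendental_exp h hx0 hx
  have hne : ∀ p q : ℚ, y ≠ (p + q * β) * x := by
    intro p q hpq
    have hq0 : q ≠ 0 := by
      intro h0
      have h5 := (hlin p (-1) (by rw [hpq, h0]; push_cast; ring)).2
      norm_num at h5
    have h6 : Complex.exp (q * β * x) = Complex.exp y * (Complex.exp (p * x))⁻¹ := by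
      rw [← Complex.exp_neg, ← Complex.exp_add]
      congr 1
      rw [hpq]
      ring
    have h7 : IsAlgebraic ℚ (Complex.exp (q * β * x)) := by
      rw [h6]
      exact hy.mul (FinB_exp_rat p hx).inv
    refine full_GS (q * β) x ?_ ?_ hx0 hx h7
    · exact (isAlgebraic_algebraMap (R := ℚ) (A := ℂ) q).mul hβ
    · intro r hr
      apply hirr (q⁻¹ * r)
      have hq' : (q : ℂ) ≠ 0 := by exact_mod_cast hq0
      push_cast
      rw [← hr, ← mul_assoc, inv_mul_cancel₀ hq', one_mul]
  have hli : LinearIndependent ℚ ![x, y, β * x] := by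
    rw [Fintype.linearIndependent_iff]
    intro g hg
    rw [Fin.sum_univ_three] at hg
    simp only [Algebra.smul_def, eq_ratCast] at hg
    change (g 0 : ℂ) * x + g 1 * y + g 2 * (β * x) = 0 at hg
    have hg1 : g 1 = 0 := by
      by_contra hne1
      have hc : (g 1 : ℂ) ≠ 0 := by exact_mod_cast hne1
      apply hne (-(g 0) / g 1) (-(g 2) / g 1)
      push_cast
      field_simp
      linear_combination hg
    rw [hg1] at hg
    have hg2 : (g 0 : ℂ) + g 2 * β = 0 := by
      have : ((g 0 : ℂ) + g 2 * β) * x = 0 := by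
        push_cast at hg
        linear_combination hg
      exact (mul_eq_zero.mp this).resolve_right hx0
    have hg3 : g 2 = 0 := by
      by_contra hne2
      have hc : (g 2 : ℂ) ≠ 0 := by exact_mod_cast hne2
      apply hirr (-(g 0) / g 2)
      push_cast
      field_simp
      linear_combination hg2
    rw [hg3] at hg2
    have hg4 : g 0 = 0 := by
      have : (g 0 : ℂ) = 0 := by simpa using hg2
      exact_mod_cast this
    intro i
    fin_cases i
    · exact hg4
    · exact hg1
    · exact hg3
  refine full_T23 x β ![x, y, β * x] hxt hirr hli (FinB_rat hβ) ?_ ?_ ?_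
  · intro j
    fin_cases j
    · exact FinB_self x
    · exact hxy
    · exact FinB_algmul (FinB_rat hβ) (FinB_self x)
  · intro j
    fin_cases j
    · exact FinB_rat hx
    · exact FinB_rat hy
    · exact hu
  · intro j
    fin_cases j
    · exact hu
    · exact hvx
    · have h8 : Complex.exp (β * (β * x)) =
          Complex.exp (t * (β * x)) * (Complex.exp (n * x))⁻¹ := by
        rw [← Complex.exp_neg, ← Complex.exp_add]
        congr 1
        linear_combination x * hq
      change Alg x (Complex.exp (β * (β * x)))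
      rw [h8]
      exact FinB_algmul (FinB_exp_rat t hu) (FinB_rat (FinB_exp_rat n hx).inv)

end IUB_VA

theorem ub_VA (hBD : StBD) : StVA := by
  intro β hβ hirr V hV s hs hbad
  obtain ⟨hst, hsexp, _⟩ := (hBD β s).1 hbad
  have hmem : s ∈ Vs β V s := (mem_Vs β V s s).2 ⟨hs, FinB_self s, hsexp⟩
  refine ⟨hmem, ?_, ?_, ?_⟩
  · intro b hb hb0
    obtain ⟨hbV, hb1, hb2⟩ := (mem_Vs β V s b).1 hb
    have hbt : Transcendental ℚ b := fun h => LW.transcendental_exp h hb0 (hV b hbV)
    have hbs : Alg b s := IUB_VA.swap hbt hb1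
    refine ⟨(hBD β b).2 hb0 (hV b hbV) (FinB_trans hbs hb2), ?_⟩
    ext c
    rw [mem_Vs, mem_Vs]
    constructor
    · rintro ⟨h1, h2, h3⟩
      exact ⟨h1, FinB_trans hb1 h2, FinB_trans hb1 h3⟩
    · rintro ⟨h1, h2, h3⟩
      exact ⟨h1, FinB_trans hbs h2, FinB_trans hbs h3⟩
  · by_contra hcon
    push Not at hcon
    obtain ⟨f, hf⟩ := exists_linearIndependent_of_le_finrank (R := ℚ) (M := Vs β V s) (n := 3) hcon
    have hy : LinearIndependent ℚ (fun j => (f j : ℂ)) :=
      hf.map' (Vs β V s).subtype (Vs β V s).ker_subtype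
    have hm : ∀ j, (f j : ℂ) ∈ V ∧ Alg s (f j : ℂ) ∧ Alg s (Complex.exp (β * (f j : ℂ))) :=
      fun j => (mem_Vs β V s _).1 (f j).2
    exact full_T23 s β (fun j => (f j : ℂ)) hst hirr hy (FinB_rat hβ) (fun j => (hm j).2.1)
      (fun j => FinB_rat (hV _ (hm j).1)) (fun j => (hm j).2.2)
  · intro hd
    obtain ⟨_, _, t, n, hq⟩ := FinB_quad β hd
    apply le_antisymm
    · intro b hb
      obtain ⟨hbV, hb1, hb2⟩ := (mem_Vs β V s b).1 hb
      by_contra hnot
      refine IUB_VA.core2 β hβ hirr t n hq s b hbad.exp (hV b hbV) ?_ hsexp hb1 hb2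
      intro p q hpq
      have hq0 : q = 0 := by
        by_contra hne
        apply hnot
        rw [Submodule.mem_span_singleton]
        refine ⟨-p / q, ?_⟩
        have hc : (q : ℂ) ≠ 0 := by exact_mod_cast hne
        rw [Rat.smul_def]
        push_cast
        field_simp
        linear_combination -hpq
      subst hq0
      refine ⟨?_, rfl⟩
      have h1 : (p : ℂ) * s = 0 := by
        rw [Rat.cast_zero, zero_mul, add_zero] at hpq
        exact hpq
      have h2 := (mul_eq_zero.mp h1).resolve_right hbad.ne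
      exact_mod_cast h2
    · rw [Submodule.span_singleton_le_iff_mem]
      exact hmem

end Pool.Agent.Work.MP_327059_nt.UB
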