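import Pool.Agent.Work.MP_327059_nt.UB.FN
import Pool.Agent.Work.MP_327059_nt.UB.I_LG
import Pool.Agent.Work.MP_327059_nt.UB.I_DV
import Pool.Agent.Work.MP_327059_nt.UB.I_CO
import Pool.Agent.Work.MP_327059_nt.UB.I_LI
import Pool.Agent.Work.MP_327059_nt.UB.I_CH
import Pool.Agent.Work.MP_327059_nt.UB.I_BA
import Pool.Agent.Work.MP_327059_nt.UB.I_HF
import Pool.Agent.Work.MP_327059_nt.UB.I_BZ
import Pool.Agent.Work.MP_327059_nt.UB.I_BD
import Pool.Agent.Work.MP_327059_nt.UB.I_ND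
import Pool.Agent.Work.MP_327059_nt.UB.I_VA
import Pool.Agent.Work.MP_327059_nt.UB.I_CT
import Pool.Agent.Work.MP_327059_nt.UB.I_CP

/-!
# MP_327059_nt, block UB: the closed theorem
-/

set_option autoImplicit false

namespace Pool.Agent.Work.MP_327059_nt.UB

theorem cBA : StBA := ub_BA ub_LG ub_DV ub_CO ub_LI ub_CH

theorem cBZ : StBZ := ub_BZ ub_HF cBA

theorem cVA : StVA := ub_VA ub_BD

theorem cCT : StCT := ub_CT ub_BD ub_ND cBZ

theorem cCP : StCP := ub_CP ub_HF cVA cCT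

theorem cFN : StFN := ub_FN cVA cCT cCP

end Pool.Agent.Work.MP_327059_nt.UB
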