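import Mathlib

/-!
# MP_327059_nt, block UB (captain helper12): quadrics, statements with complete proofs

Bezout's bound for the non-degenerate common zeros of quadrics, elementary.
`PN n = MvPolynomial (Fin n) ℚ`. Item `XX`: file `UB/I_XX.lean`, theorem `ub_XX`.
-/

set_option autoImplicit false

namespace Pool.Agent.Work.MP_327059_nt.UB

open MvPolynomial

/-- [LG] (EASY) Lagrange polynomials. PROOF. `u p = ∏_(p' ∈ P, p' ≠ p) (X i - C (p' i)) * C (p i - p' i)⁻¹`,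
`i = i(p,p')` a coordinate with `p i ≠ p' i`. -/
def StLG : Prop := ∀ (n : ℕ) (P : Finset (Fin n → ℚ)),
  ∃ u : (Fin n → ℚ) → MvPolynomial (Fin n) ℚ,
    ∀ p ∈ P, ∀ p' ∈ P, eval p' (u p) = if p = p' then 1 else 0

/-- [DV] (EASY-MEDIUM) The exponents of degree at most `D`, and the dimension. PROOF. First part: by induction
on `n` (`Fin.cons`: first exponent `k`, the others of degree at most `D - k`; hockey-stick
`∑_(j ≤ D) C(j + n, n) = C(D + n + 1, n + 1)`, `Nat.sum_range_choose_..` or induction on `D`), or with a slack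
variable: exponents in `n + 1` variables of degree exactly `D` (`Sym`, `Finset.finsuppAntidiag`).
Second part: the family lies in the span of the monomials with exponents in the finite set of the first
part (for `D = m`), of dimension at most its cardinality. -/
def StDV : Prop :=
  (∀ n D : ℕ, ∃ Bx : Finset (Fin n →₀ ℕ), (∀ b, b ∈ Bx ↔ b.degree ≤ D) ∧
    Bx.card = (D + n).choose n) ∧
  ∀ (n m : ℕ) (ι : Type) [Fintype ι] (w : ι → MvPolynomial (Fin n) ℚ),
    LinearIndependent ℚ w → (∀ i, (w i).totalDegree ≤ m) →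
    Fintype.card ι ≤ (m + n).choose n

/-- [CO] (EASY) PROOF. `C(D+n,n) n! ≥ D^n` and `C(2D+e+n,n) n! ≤ (2D+e+n)^n` (products of `n` factors:
`Nat.ascFactorial`, `Nat.pow_succ_le_ascFactorial`, `Nat.ascFactorial_eq_factorial_mul_choose`, `Nat.choose_le_pow`-like),
so `N D^n ≤ (2D+e+n)^n`, `N ≤ (2 + (e+n)/D)^n` for all `D ≥ 1`; the limit is `2^n` (`ge_of_tendsto`). -/
def StCO : Prop := ∀ n N e : ℕ,
  (∀ D : ℕ, N * (D + n).choose n ≤ (2 * D + e + n).choose n) → N ≤ 2 ^ n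

/-- [LI] (MEDIUM) Independence. PROOF. Suppose `∑ c(p,b) u_p g^b = 0` (finite sum over `(p,b)`), not all `c = 0`. Let
`m` be the least `|b|` with `c(p,b) ≠ 0` for some `p`, and let `c(p0,b0) ≠ 0`, `|b0| = m`. For `v ∈ ℚ^n` let
`Ψ : MvPolynomial → ℚ[T]` be the algebra map `X j ↦ C (p0 j) + C (v j) * T`. `Ψ(g i)` has constant coefficient
`eval p0 (g i) = 0` and linear coefficient `L_i(v) = ∑_j v_j eval p0 (pderiv j (g i))`; `Ψ(u p)` has constant coefficient
`eval p0 (u p) = [p = p0]`. So the coefficient of `T^m` in `Ψ(u_p g^b)` is `0` if `|b| > m`, and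
`[p = p0] ∏ L_i(v)^(b_i)` if `|b| = m`. Hence `∑_(|b| = m) c(p0,b) ∏ L_i(v)^(b_i) = 0` for all `v`. The matrix of `L` is
invertible, so `∑_(|b| = m) c(p0,b) w^b = 0` for all `w ∈ ℚ^n`, so the polynomial `∑_(|b| = m) c(p0,b) X^b` is zero
(`MvPolynomial.funext`), `c(p0,b0) = 0`: contradiction. -/
def StLI : Prop := ∀ (n : ℕ) (P : Finset (Fin n → ℚ)) (g : Fin n → MvPolynomial (Fin n) ℚ)
  (u : (Fin n → ℚ) → MvPolynomial (Fin n) ℚ),
  (∀ p ∈ P, ∀ i, eval p (g i) = 0) →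
  (∀ p ∈ P, (Matrix.of fun i j => eval p (pderiv j (g i))).det ≠ 0) →
  (∀ p ∈ P, ∀ p' ∈ P, eval p' (u p) = if p = p' then 1 else 0) →
  LinearIndependent ℚ (fun q : P × (Fin n →₀ ℕ) => u q.1 * ∏ i, g i ^ q.2 i)

/-- [CH] (EASY-MEDIUM) Choice of `n` combinations. PROOF. `𝒢` = the span of `𝓕`, a subspace; all its elements have
total degree at most `2` and vanish on `P`; for `p ∈ P` let `G_p : 𝒢 → ℚ^n` be the gradient at `p`, linear; it is
surjective, as a functional `v` which is zero on its range is `0` by hypothesis. Choose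
`g_0, g_1, ..` in `𝒢` one after the other so that for all `p ∈ P` the vectors `G_p(g_0), .., G_p(g_k)` are linearly
independent: for `k < n` the set of the `g` with `G_p(g)` in the span of the previous ones is a PROPER subspace of
`𝒢`, and a vector space over `ℚ` is not a finite union of proper subspaces (`Subspace.biUnion_ne_univ_of_top_notMem`
or similar). Rows independent: determinant not zero (`Matrix.linearIndependent_rows_iff_isUnit`). -/
def StCH : Prop := ∀ (n : ℕ) (P : Finset (Fin n → ℚ)) (𝓕 : Set (MvPolynomial (Fin n) ℚ)),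
  (∀ f ∈ 𝓕, f.totalDegree ≤ 2 ∧ ∀ p ∈ P, eval p f = 0) →
  (∀ p ∈ P, ∀ v : Fin n → ℚ, (∀ f ∈ 𝓕, ∑ j, v j * eval p (pderiv j f) = 0) → v = 0) →
  ∃ g : Fin n → MvPolynomial (Fin n) ℚ,
    (∀ i, (g i).totalDegree ≤ 2 ∧ ∀ p ∈ P, eval p (g i) = 0) ∧
    ∀ p ∈ P, (Matrix.of fun i j => eval p (pderiv j (g i))).det ≠ 0

/-- [BA] (EASY-MEDIUM) Affine form. PROOF (StLG, StDV, StCO, StLI, StCH). `g` from StCH, `u` from StLG, `e` = the maximum of
the total degrees of the `u p`, `p ∈ P`. For every `D` the family of StLI restricted to `P × Bx(D)` (StDV, first part) is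
independent, of total degree `≤ e + 2 |b| ≤ 2 D + e` (`totalDegree_mul`, `totalDegree_finset_prod`, `totalDegree_pow`), so
`|P| C(D+n,n) ≤ C(2D+e+n,n)` (StDV, second part). StCO. -/
def StBA : Prop := ∀ (n : ℕ) (P : Finset (Fin n → ℚ)) (𝓕 : Set (MvPolynomial (Fin n) ℚ)),
  (∀ f ∈ 𝓕, f.totalDegree ≤ 2 ∧ ∀ p ∈ P, eval p f = 0) →
  (∀ p ∈ P, ∀ v : Fin n → ℚ, (∀ f ∈ 𝓕, ∑ j, v j * eval p (pderiv j f) = 0) → v = 0) →
  P.card ≤ 2 ^ n

/-- [HF] (EASY) A functional. PROOF. The functionals which vanish on `W` form a proper subspace of the dual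
(`W ≠ 0`; `W` is a subspace of `E`), and the dual, a vector space over `ℚ`, is not a finite union of proper
subspaces (`Subspace.biUnion_ne_univ_of_top_notMem` or similar). -/
def StHF : Prop := ∀ (E : Type) [AddCommGroup E] [Module ℚ E] [FiniteDimensional ℚ E]
  (𝒲 : Finset (Submodule ℚ E)), (∀ W ∈ 𝒲, W ≠ ⊥) →
  ∃ h : E →ₗ[ℚ] ℚ, ∀ W ∈ 𝒲, ∃ w ∈ W, h w ≠ 0

/-- [BZ] (MEDIUM) Projective form. PROOF (StHF, StBA). By StHF (for the lines `span {s}`) there is `h` with `h s ≠ 0` for all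
`s ∈ S`. If `S` is empty there is nothing to do; so `h ≠ 0` and `ker h` has dimension `n`; let `e_1..e_n` be a basis of it
and `h s₀ = 1`. For `s ∈ S` the vector `s' = s / h s` has `h s' = 1`, so `s' = s₀ + ∑ x_j e_j` for a unique `x = x(s) ∈ ℚ^n`.
`x` is injective on `S` (`s' = t'` implies `t ∈ span {s}`). For `B ∈ 𝓑` put
`f_B = C (B s₀ s₀) + ∑_j C (B s₀ e_j + B e_j s₀) * X j + ∑_(j,k) C (B e_j e_k) * X j * X k`, of total degree `≤ 2`. With
`z(x) = s₀ + ∑ x_j e_j`: `eval x f_B = B z(x) z(x)`, and `∑_j v_j eval x (pderiv j f_B) = B z(x) w + B w z(x)`, `w = ∑ v_j e_j`. So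
`f_B` vanishes on `P = {x(s)}` (`B s' s' = (h s)⁻² B s s`), and if `v` is orthogonal to all gradients at `x(s)` then
`B s w + B w s = 0` for all `B`, so `w ∈ span {s}`, and `h w = 0 ≠ h s` gives `w = 0`, `v = 0`. StBA. -/
def StBZ : Prop := ∀ (n : ℕ) (E : Type) [AddCommGroup E] [Module ℚ E] [FiniteDimensional ℚ E],
  Module.finrank ℚ E = n + 1 → ∀ (S : Finset E) (𝓑 : Set (E →ₗ[ℚ] E →ₗ[ℚ] ℚ)),
  (∀ s ∈ S, s ≠ 0) → (∀ s ∈ S, ∀ t ∈ S, t ∈ Submodule.span ℚ {s} → t = s) →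
  (∀ B ∈ 𝓑, ∀ s ∈ S, B s s = 0) →
  (∀ s ∈ S, ∀ b : E, (∀ B ∈ 𝓑, B s b + B b s = 0) → b ∈ Submodule.span ℚ {s}) →
  S.card ≤ 2 ^ n

end Pool.Agent.Work.MP_327059_nt.UB
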