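import Pool.Agent.Work.MP_327059_nt.UB.Defs
import Pool.Agent.Work.MP_327059_nt.UB.Stmts

/-!
# MP_327059_nt, block UB (captain helper12): logarithms, statements with complete proofs

`Alg θ x`: `x` is algebraic over `ℚ(θ)`. `ld β D z = D (exp (β z)) / exp (β z)`, `ℚ`-linear in `z`. Use the landed
`full_T23 : S_T23`, `full_GS : S_GS`, `pr_Pair : S_Pair`, `dep_rel`, `der_alg`, `alg_of_der`, `exists_der_one`, `closed_of`,
`bad_smul`, `FinB_...` (AA/FinB.lean, FL/Core.lean, FL/Alg.lean, FL/Fin.lean), `Pool.Agent.ED.tor_res_closed`,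
`LW.transcendental_exp`.
Item `XX`: file `UB/I_XX.lean`, theorem `ub_XX`.
-/

set_option autoImplicit false

namespace Pool.Agent.Work.MP_327059_nt.UB

open Pool.Agent.Work.MP_327059_nt.AA Pool.Agent.Work.MP_327059_nt.FL

/-- [BD] (EASY) PROOF. `s` is transcendental (`LW.transcendental_exp`); `pr_Pair`. `bf β D D' s s = 0`: `dep_rel`. Converse: if `b ≠ 0`,
`exp b` algebraic, `Alg b (exp (β b))`, then `Bad β b`. -/
def StBD : Prop := ∀ (β s : ℂ),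
  (Bad β s → Transcendental ℚ s ∧ Alg s (Complex.exp (β * s)) ∧
    ∀ D D' : Derivation ℚ ℂ ℂ, bf β D D' s s = 0) ∧
  (s ≠ 0 → IsAlgebraic ℚ (Complex.exp s) → Alg s (Complex.exp (β * s)) → Bad β s)

/-- [ND] (MEDIUM) Non-degeneracy. PROOF. `s` is transcendental, `D0 s = 1` (`exists_der_one`), `y = exp (β s)`, `Alg s y`,
`c = ld β D0 s = D0 y / y`. (1) `Alg s c`: by `alg_of_der`; if `D s = 0` then `D y = 0` (`der_alg`), the commutator
`⁅D, D0⁆` (`Derivation.commutator_apply`) kills `s` (`D (D0 s) - D0 (D s) = D 1 - D0 0 = 0`), so it kills `y`, and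
`D (D0 y) = D0 (D y) + ⁅D, D0⁆ y = 0`, so `D c = 0`. (2) `c ≠ 0`: otherwise `D0 y = 0`, and for every `D` the derivation
`D - D s • D0` kills `s`, so `y`: `D y = 0` for all `D`, so `y` is algebraic over `ℚ` (`exists_der_one` for a transcendental
`y`), against `full_GS`. (3) For `D s = 0`: `ld β D s = 0` (`der_alg`), and the hypothesis for `D, D0` reads
`D b * c - ld β D b = 0` (with `bf β D D0 s b + bf β D D0 b s = D s * ld D0 b - D0 s * ld D b + D b * ld D0 s - D0 b * ld D s`).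
(4) Let `E` be the field of the `x` with `Alg s x` (the restriction of scalars of `algebraicClosure (adjoin ℚ {s}) ℂ`), algebraically closed
(`closed_of`, as in `FL.core`). Apply `tor_res_closed` (`C = E`, `M = ℂ`, `h = 1`, `ε = 1`, `g = exp (β b)`, `T = c * b`): an
`E`-derivation `X` kills `s`, so `X g / g = ld β X b = c X b = X (c b)`. So `exp (β b) ∈ E`. (5) For `D s = 0`: `ld β D b = 0`, so
`c D b = 0`, `D b = 0`; `alg_of_der`: `Alg s b`. -/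
def StND : Prop := ∀ (β s b : ℂ), IsAlgebraic ℚ β → (∀ q : ℚ, β ≠ q) → Bad β s →
  (∀ D D' : Derivation ℚ ℂ ℂ, bf β D D' s b + bf β D D' b s = 0) →
  Alg s b ∧ Alg s (Complex.exp (β * b))

/-- [VA] (EASY-MEDIUM) The subspaces `Vs`. PROOF. (1) `s ∈ Vs`: StBD. (2) If `b ∈ Vs β V s`, `b ≠ 0`: `b` is transcendental, `Alg s b`, so
`Alg b s` (if not, `![b, s]` and so `![s, b]` would be independent, `pr_Pair`; or by derivations: if `D b = 0` and
`D s ≠ 0`, then with `D' b = 1` (`exists_der_one`) the derivation `D' s • D - D s • D'` kills `s`, so `b`, but its value at `b` is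
`- D s ≠ 0`), so `Vs β V b = Vs β V s` (`FinB_trans`) and `Bad β b` (StBD: `Alg b (exp (β b))`). (3) `finrank ≤ 2`: otherwise three
independent elements `y` of `Vs β V s`: `full_T23 s β y` (`exp (y j)` algebraic as `y j ∈ V`). (4) `β` quadratic, `β^2 = t β - n`
(`FinB_quad`): if `b ∈ Vs β V s` is not in `span {s}` then `y = ![s, b, β * s]` is independent: a relation with a non-zero coefficient of
`β * s` gives `b = (p + q β) s` with rational `p, q` (`q ≠ 0` because `b ∉ span {s}`; coefficient of `b` not zero because `β` is irrational), so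
`exp (q β s) = exp b / exp (p s)` and `exp (β s)` would be algebraic, against `full_GS`. Then `full_T23 s β y`:
`exp (β * (β * s)) = exp (t (β s)) * exp (-(n s))`, `FinB_exp_rat`. So `Vs β V s = span {s}`. (hBD : StBD) -/
def StVA : Prop := ∀ (β : ℂ), IsAlgebraic ℚ β → (∀ q : ℚ, β ≠ q) → ∀ V : Submodule ℚ ℂ,
  (∀ z ∈ V, IsAlgebraic ℚ (Complex.exp z)) → ∀ s ∈ V, Bad β s →
    s ∈ Vs β V s ∧ (∀ b ∈ Vs β V s, b ≠ 0 → Bad β b ∧ Vs β V b = Vs β V s) ∧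
    Module.finrank ℚ (Vs β V s) ≤ 2 ∧
    ((minpoly ℚ β).natDegree = 2 → Vs β V s = Submodule.span ℚ {s})

/-- [CT] (EASY-MEDIUM) Counting lines. PROOF (StBD, StND, StBZ). If `S` is empty there is nothing to do; otherwise `V ≠ ⊥`,
`finrank V = n + 1`, `n = finrank V - 1`. Apply StBZ to `E = V`, the elements of `S` as elements of `V`, and `𝓑` = all forms
`(z, w) ↦ φ (bf β D D' z w)`, `D, D'` derivations, `φ : ℂ →ₗ[ℚ] ℚ` (`bf` is `ℚ`-bilinear: `ld β D` and `D` are `ℚ`-linear;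
`LinearMap.mk₂` ). `B s s = 0`: StBD. If `B s b + B b s = 0` for all `B`, then `bf β D D' s b + bf β D D' b s = 0` (functionals separate
the points of the `ℚ`-vector space `ℂ`: `Module.forall_dual_apply_eq_zero_iff` or `exists_dual_forall..`), so by StND
`b ∈ Vs β V s = span {s}`. -/
def StCT : Prop := ∀ (β : ℂ), IsAlgebraic ℚ β → (∀ q : ℚ, β ≠ q) → ∀ V : Submodule ℚ ℂ,
  FiniteDimensional ℚ V → (∀ z ∈ V, IsAlgebraic ℚ (Complex.exp z)) → ∀ S : Finset ℂ,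
  (∀ s ∈ S, s ∈ V ∧ Bad β s ∧ Vs β V s = Submodule.span ℚ {s}) →
  (∀ s ∈ S, ∀ t ∈ S, t ∈ Submodule.span ℚ {s} → t = s) →
  S.card ≤ 2 ^ (Module.finrank ℚ V - 1)

/-- [CP] (MEDIUM) Counting planes. PROOF (StHF, StVA, StCT). StHF for `E = V` and the subspaces `W` of `𝒲` (as subspaces of `V`:
`Submodule.comap V.subtype W`; `≠ ⊥`) gives `h : V →ₗ[ℚ] ℚ`, not zero on any `W ∈ 𝒲`. `V' = (ker h).map V.subtype ≤ V`; if `𝒲` is not empty
then `h ≠ 0` and `finrank V' = finrank V - 1`. For `W = Vs β V s ∈ 𝒲` the kernel of `h` on `W` has dimension `1`: `W ⊓ V' = span {s_W}`,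
`s_W ≠ 0`. By StVA `Bad β s_W` and `Vs β V s_W = W`, so `Vs β V' s_W = W ⊓ V' = span {s_W}`. `W ↦ s_W` is injective and different `s_W` are
not proportional (`Vs β V s_W = W`; `s_(W') ∈ span {s_W} ⊆ W` gives `W' = Vs β V s_(W') = W` by StVA). StCT for `V'` and `S = {s_W}`. -/
def StCP : Prop := ∀ (β : ℂ), IsAlgebraic ℚ β → (∀ q : ℚ, β ≠ q) → ∀ V : Submodule ℚ ℂ,
  FiniteDimensional ℚ V → (∀ z ∈ V, IsAlgebraic ℚ (Complex.exp z)) →
  ∀ 𝒲 : Finset (Submodule ℚ ℂ),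
  (∀ W ∈ 𝒲, Module.finrank ℚ W = 2 ∧ ∃ s ∈ V, Bad β s ∧ W = Vs β V s) →
  𝒲.card ≤ 2 ^ (Module.finrank ℚ V - 2)

/-- [FN] (assembly, helper12) The theorem. -/
def StFN : Prop := ∀ β : ℂ, IsAlgebraic ℚ β → (∀ q : ℚ, β ≠ q) →
  ∀ V : Submodule ℚ ℂ, FiniteDimensional ℚ V → (∀ z ∈ V, IsAlgebraic ℚ (Complex.exp z)) →
  ∃ L P : Finset (Submodule ℚ ℂ),
    L.card ≤ 2 ^ (Module.finrank ℚ V - 1) ∧ P.card ≤ 2 ^ (Module.finrank ℚ V - 2) ∧
    (∀ W ∈ L, W ≤ V ∧ Module.finrank ℚ W = 1) ∧ (∀ W ∈ P, W ≤ V ∧ Module.finrank ℚ W = 2) ∧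
    (∀ z ∈ V, z ≠ 0 → (¬ AlgebraicIndependent ℚ ![z, Complex.exp (β * z)] ↔
      ∃ W, (W ∈ L ∨ W ∈ P) ∧ z ∈ W)) ∧
    (∀ W₁ W₂, (W₁ ∈ L ∨ W₁ ∈ P) → (W₂ ∈ L ∨ W₂ ∈ P) → W₁ ≠ W₂ → W₁ ⊓ W₂ = ⊥) ∧
    ((minpoly ℚ β).natDegree = 2 → P = ∅ ∧
      ∀ W₁ ∈ L, ∀ W₂ ∈ L, ∀ W₃ ∈ L, W₁ ≠ W₂ → W₁ ≠ W₃ → W₂ ≠ W₃ → ¬ W₁ ≤ W₂ ⊔ W₃)

end Pool.Agent.Work.MP_327059_nt.UB
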